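import Pool.Agent.J4.H95.R2.Defs
import Pool.Agent.J4.H93.SR.B4
import Pool.Agent.J4.H93.SR.B1

/-!
# Project R2: assembly
-/

set_option autoImplicit false

open MeasureTheory Set Filter Topology

namespace Pool.Agent.J4.H95.R2

open Pool.Agent.TH478.CE Pool.Agent.J4.H93.SR Pool.Agent.J4.H93.RZ

namespace AsmAux

/-- the integrand -/
noncomputable def F {N : ℕ} (x : Fin N → S2) (τ : ℝ) : ℝ :=
  1 / N * Ga (τ * N) x - (if τ ≤ 1 then (N : ℝ) * g2 (τ * N) else 0)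

theorem Ga_nonneg {N : ℕ} (t : ℝ) (x : Fin N → S2) : 0 ≤ Ga t x := by
  unfold Ga
  refine Finset.sum_nonneg fun i _ => Finset.sum_nonneg fun j _ => ?_
  split_ifs
  · exact le_rfl
  · positivity

theorem F_ge {N : ℕ} (hN : 0 < N) (x : Fin N → S2) {τ : ℝ} (hτ : 0 < τ) :
    -(if τ ≤ 1 then (1 : ℝ) else 0) ≤ F x τ := by
  have hN0 : (0 : ℝ) < N := by exact_mod_cast hN
  unfold F
  split_ifs with h
  · have h1 := gauss_pd (mul_pos hτ hN0) x
    have h2 : 1 / (N : ℝ) * ((N : ℝ) ^ 2 * g2 (τ * N)) ≤ 1 / N * (Ga (τ * N) x + N) :=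
      mul_le_mul_of_nonneg_left h1 (by positivity)
    have e1 : 1 / (N : ℝ) * ((N : ℝ) ^ 2 * g2 (τ * N)) = N * g2 (τ * N) := by
      field_simp
    have e2 : 1 / (N : ℝ) * (Ga (τ * N) x + N) = 1 / N * Ga (τ * N) x + 1 := by
      field_simp
    rw [e1, e2] at h2
    linarith
  · have : 0 ≤ 1 / (N : ℝ) * Ga (τ * N) x := mul_nonneg (by positivity) (Ga_nonneg _ _)
    linarith

theorem ite_eq_ind (f : ℝ → ℝ) : (fun τ : ℝ => if τ ≤ 1 then f τ else 0) =
    (Iic (1 : ℝ)).indicator f := by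
  ext τ
  simp [indicator, mem_Iic]

theorem int_ite {f : ℝ → ℝ} (hf : IntegrableOn f (Ioc 0 1)) :
    IntegrableOn (fun τ : ℝ => if τ ≤ 1 then f τ else 0) (Ioi 0) ∧
    ∫ τ in Ioi (0 : ℝ), (if τ ≤ 1 then f τ else 0) = ∫ τ in Ioc (0 : ℝ) 1, f τ := by
  have hs : Ioi (0 : ℝ) ∩ Iic 1 = Ioc 0 1 := by
    ext y
    simp [mem_Ioc]
  constructor
  · rw [ite_eq_ind, IntegrableOn, integrable_indicator_iff measurableSet_Iic, IntegrableOn,
      Measure.restrict_restrict measurableSet_Iic, inter_comm, hs]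
    exact hf
  · rw [ite_eq_ind, setIntegral_indicator measurableSet_Iic, hs]

end AsmAux

end Pool.Agent.J4.H95.R2
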