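import Pool.Agent.J4.H95.R2.Defs

/-!
Project R2 (helper95), piece CONT (helper81).
-/

set_option autoImplicit false

open MeasureTheory Set Filter Topology

namespace Pool.Agent.J4.H95.R2

namespace CONTAux

theorem meas (h : S_PSI) : AEStronglyMeasurable Ps (volume.restrict (Ioi 0)) := by
  have h1 : AEStronglyMeasurable (fun τ : ℝ => max 1 τ * Ps τ) (volume.restrict (Ioi 0)) :=
    h.aestronglyMeasurable
  have h2 : AEStronglyMeasurable (fun τ : ℝ => (max 1 τ)⁻¹) (volume.restrict (Ioi 0)) :=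
    ((measurable_const.max measurable_id).inv).aestronglyMeasurable
  refine (h2.mul h1).congr (ae_of_all _ fun τ => ?_)
  have h3 : (0 : ℝ) < max 1 τ := lt_of_lt_of_le one_pos (le_max_left _ _)
  show (max 1 τ)⁻¹ * (max 1 τ * Ps τ) = Ps τ
  rw [← mul_assoc, inv_mul_cancel₀ h3.ne', one_mul]

theorem pow_le {τ w : ℝ} (hτ : 0 < τ) (h1 : 1 < w) (h2 : w < 2) : τ ^ (w - 1) ≤ max 1 τ := by
  rcases le_total τ 1 with h | h
  · exact (Real.rpow_le_one hτ.le h (by linarith)).trans (le_max_left _ _)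
  · refine le_trans ?_ (le_max_right _ _)
    calc τ ^ (w - 1) ≤ τ ^ (1 : ℝ) := Real.rpow_le_rpow_of_exponent_le h (by linarith)
      _ = τ := Real.rpow_one τ

end CONTAux

theorem t_CONT (h : S_PSI) : S_CONT := by
  unfold S_CONT
  refine tendsto_integral_filter_of_dominated_convergence (fun τ => ‖max 1 τ * Ps τ‖) ?_ ?_ ?_ ?_
  · refine Eventually.of_forall fun w => ?_
    exact ((measurable_id.pow_const (w - 1)).aestronglyMeasurable).mul (CONTAux.meas h)
  · have hw : ∀ᶠ w in 𝓝[>] (1 : ℝ), w ∈ Ioo (1 : ℝ) 2 := Ioo_mem_nhdsGT (by norm_num)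
    filter_upwards [hw] with w hw
    refine (ae_restrict_iff' measurableSet_Ioi).2 (ae_of_all _ fun τ hτ => ?_)
    rw [norm_mul, norm_mul]
    refine mul_le_mul_of_nonneg_right ?_ (norm_nonneg _)
    rw [Real.norm_of_nonneg (Real.rpow_nonneg (le_of_lt hτ) _),
      Real.norm_of_nonneg (le_trans zero_le_one (le_max_left _ _))]
    exact CONTAux.pow_le hτ hw.1 hw.2
  · exact h.norm
  · refine (ae_restrict_iff' measurableSet_Ioi).2 (ae_of_all _ fun τ hτ => ?_)
    have h1 : Tendsto (fun w : ℝ => τ ^ (w - 1)) (𝓝[>] 1) (𝓝 (τ ^ ((1 : ℝ) - 1))) := by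
      have hc : Continuous fun w : ℝ => τ ^ (w - 1) :=
        (Real.continuous_const_rpow (ne_of_gt hτ)).comp (continuous_id.sub continuous_const)
      exact (hc.tendsto 1).mono_left nhdsWithin_le_nhds
    have h2 := h1.mul_const (Ps τ)
    rw [sub_self, Real.rpow_zero, one_mul] at h2
    exact h2

end Pool.Agent.J4.H95.R2
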