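import Pool.Agent.J4.H95.R2.Defs

/-! Piece DM of project R2. -/

set_option autoImplicit false

open MeasureTheory Set Filter Topology

namespace Pool.Agent.J4.H95.R2

open Pool.Agent.TH478.CE Pool.Agent.J4.H93.SR

namespace DMAux

theorem lin (c : ℝ) (hc : 0 < c) : IntegrableOn (fun τ : ℝ => τ * Real.exp (-(c * τ))) (Ioi 0) ∧
    ∫ τ in Ioi (0 : ℝ), τ * Real.exp (-(c * τ)) = 1 / c ^ 2 := by
  have h1 := integrableOn_rpow_mul_exp_neg_mul_rpow (s := 1) (p := 1) (b := c) (by norm_num)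
    one_pos hc
  have h2 := Real.integral_rpow_mul_exp_neg_mul_Ioi (a := 2) (r := c) two_pos hc
  have e : (2 : ℝ) - 1 = 1 := by norm_num
  rw [e] at h2
  simp only [Real.rpow_one, neg_mul] at h1 h2
  refine ⟨h1, ?_⟩
  rw [h2, Real.Gamma_two, mul_one, Real.rpow_two, one_div, one_div, inv_pow]

end DMAux

open DMAux in
theorem t_DM : S_DM := by
  have hpi := Real.pi_gt_d2
  have hpi0 := Real.pi_pos
  have hc := c3_pos
  have hc2 := c3_sq
  obtain ⟨k, hk⟩ : ∃ k : ℝ, k = 4 * Real.pi * c3 := ⟨_, rfl⟩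
  have hk0 : 0 < k := by rw [hk]; positivity
  have h1 := lin k hk0
  have hind : (fun τ : ℝ => if 4 * Real.pi * τ ≤ Real.pi then (1 : ℝ) else 0) =
      (Iic (1 / 4 : ℝ)).indicator fun _ => 1 := by
    funext τ
    by_cases h : τ ≤ 1 / 4
    · rw [indicator_of_mem (by exact h), if_pos (by nlinarith)]
    · rw [indicator_of_notMem (by exact h), if_neg (by intro h'; apply h; nlinarith)]
  have hvol : volume.restrict (Ioi (0 : ℝ)) (Iic (1 / 4 : ℝ)) = ENNReal.ofReal (1 / 4) := by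
    rw [Measure.restrict_apply measurableSet_Iic]
    have : Iic (1 / 4 : ℝ) ∩ Ioi 0 = Ioc 0 (1 / 4) := by
      ext t
      simp [and_comm]
    rw [this, Real.volume_Ioc, sub_zero]
  have h2 : IntegrableOn (fun τ : ℝ => if 4 * Real.pi * τ ≤ Real.pi then (1 : ℝ) else 0) (Ioi 0) := by
    rw [hind]
    refine (integrable_indicator_iff measurableSet_Iic).2 ?_
    refine integrableOn_const ?_
    rw [hvol]
    exact ENNReal.ofReal_ne_top
  have h3 : ∫ τ in Ioi (0 : ℝ), (if 4 * Real.pi * τ ≤ Real.pi then (1 : ℝ) else 0) = 1 / 4 := by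
    rw [hind, integral_indicator measurableSet_Iic, setIntegral_const, smul_eq_mul, mul_one,
      measureReal_def, hvol, ENNReal.toReal_ofReal (by norm_num)]
  have e : (fun τ : ℝ => Pool.Agent.J4.H93.RZ.Dm (4 * Real.pi * τ)) = fun τ =>
      10 ^ (-8 : ℤ) * ((if 4 * Real.pi * τ ≤ Real.pi then (1 : ℝ) else 0) +
        7 * (4 * Real.pi) * (τ * Real.exp (-(k * τ)))) := by
    funext τ
    unfold Pool.Agent.J4.H93.RZ.Dm
    have e1 : -(4 * Real.pi * τ * c3) = -(k * τ) := by rw [hk]; ring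
    rw [e1]
    have e2 : 7 * (4 * Real.pi * τ * Real.exp (-(k * τ))) =
        7 * (4 * Real.pi) * (τ * Real.exp (-(k * τ))) := by ring
    rw [e2]
  unfold S_DM
  rw [e]
  have h4 : IntegrableOn (fun τ : ℝ => 7 * (4 * Real.pi) * (τ * Real.exp (-(k * τ)))) (Ioi 0) :=
    h1.1.const_mul _
  refine ⟨(h2.add h4).const_mul _, ?_⟩
  rw [integral_const_mul, integral_add h2 h4, integral_const_mul, h1.2, h3]
  have h5 : 1 / 4 + 7 * (4 * Real.pi) * (1 / k ^ 2) ≤ 7 / 10 := by
    have e3 : 7 * (4 * Real.pi) * (1 / k ^ 2) = 21 / (16 * Real.pi) := by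
      rw [hk, mul_pow, hc2]
      field_simp
      norm_num
    rw [e3]
    have : 21 / (16 * Real.pi) ≤ 9 / 20 := by
      rw [div_le_div_iff₀ (by positivity) (by norm_num)]
      nlinarith
    linarith
  have h6 : (0 : ℝ) < 10 ^ (-8 : ℤ) := by positivity
  nlinarith

end Pool.Agent.J4.H95.R2
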