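import Pool.Agent.J4.H95.R2.Defs
import Pool.Agent.J4.H93.RZ.DB2

/-!
# Project R2, piece DM
-/

set_option autoImplicit false

open MeasureTheory Set Filter Topology

namespace Pool.Agent.J4.H95.R2

open Pool.Agent.TH478.CE Pool.Agent.J4.H93.SR

theorem t_DMb : S_DM := by
  have hpi := Real.pi_pos
  have hpi3 := Real.pi_gt_d2
  obtain ⟨h1, h2⟩ := Pool.Agent.J4.H93.RZ.Dm_int 2 (1 / (4 * Real.pi)) (by norm_num) (by positivity)
  have e : (fun u : ℝ => u ^ ((2 : ℝ) / 2 - 1) * Pool.Agent.J4.H93.RZ.Dm (u / (1 / (4 * Real.pi)))) =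
      fun τ : ℝ => Pool.Agent.J4.H93.RZ.Dm (4 * Real.pi * τ) := by
    funext u
    have e1 : (2 : ℝ) / 2 - 1 = 0 := by norm_num
    have e2 : u / (1 / (4 * Real.pi)) = 4 * Real.pi * u := by field_simp
    rw [e1, e2, Real.rpow_zero, one_mul]
  rw [e] at h1 h2
  refine ⟨h1, ?_⟩
  have e3 : (2 : ℝ) / 2 = 1 := by norm_num
  have e4 : (-(1 : ℝ) - 1) = -((2 : ℕ) : ℝ) := by norm_num
  rw [e3, Real.Gamma_one, Real.rpow_one, Real.rpow_one, one_div_one, one_mul,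
    show (1 : ℝ) + 1 = ((1 : ℕ) : ℝ) + 1 by norm_num, Real.Gamma_nat_eq_factorial, e4,
    Real.rpow_neg c3_pos.le, Real.rpow_natCast] at h2
  have e5 : (c3 ^ 2)⁻¹ = 3 / 4 := by
    unfold c3
    rw [div_pow, Real.sq_sqrt (by norm_num)]
    norm_num
  rw [h2, e5]
  have h8 : (0 : ℝ) < 10 ^ (-8 : ℤ) := by positivity
  have : 1 / (4 * Real.pi) * (10 ^ (-8 : ℤ) * (Real.pi / ((Nat.factorial 1 : ℕ) : ℝ) + 7 * 1 * (3 / 4))) =
      10 ^ (-8 : ℤ) * (1 / 4 + 21 / (16 * Real.pi)) := by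
    rw [Nat.factorial_one, Nat.cast_one]
    field_simp
    ring
  rw [this, mul_comm (7 / 10 : ℝ)]
  refine mul_le_mul_of_nonneg_left ?_ h8.le
  have : 21 / (16 * Real.pi) ≤ 9 / 20 := by
    rw [div_le_div_iff₀ (by positivity) (by norm_num)]
    nlinarith
  linarith

end Pool.Agent.J4.H95.R2
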