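import Pool.Agent.J4.H93.SR.Defs
import Pool.Agent.TH478.CE.Hex
import Pool.Agent.J4.H93.RZ.Defs

/-!
# Project R2: the minimal Riesz 2-energy on the two-sphere: definitions
-/

set_option autoImplicit false

open MeasureTheory Set Filter Topology

namespace Pool.Agent.J4.H95.R2

open Pool.Agent.TH478.CE Pool.Agent.J4.H93.SR

/-- the Riesz 2-energy of `N` points of the sphere -/
noncomputable def E2 {N : ℕ} (x : Fin N → S2) : ℝ :=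
  ∑ i, ∑ j, if i = j then 0 else 1 / dist (x i) (x j) ^ 2

/-- the planar profile, regularised at `0` -/
noncomputable def Ps (τ : ℝ) : ℝ := En (4 * Real.pi * τ) - (if τ ≤ 1 then 1 / (4 * τ) else 0)

/-- the Epstein zeta function of the hexagonal lattice of covolume `1` -/
noncomputable def Zt (s : ℝ) : ℝ := ∑' m : {m : ℤ × ℤ // m ≠ 0}, ‖hexPt m.1‖ ^ (-s)

/-- the Dirichlet L-function of the character modulo three, `w > 0` -/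
noncomputable def L3 (w : ℝ) : ℝ := ∑' k : ℕ, ((3 * (k : ℝ) + 1) ^ (-w) - (3 * (k : ℝ) + 2) ^ (-w))

/-- the Riemann zeta function for `w > 1` -/
noncomputable def Z1 (w : ℝ) : ℝ := ∑' n : ℕ, ((n : ℝ) + 1) ^ (-w)

/-- REP: `1 / r² = ∫_0^∞ exp(-t r²) dt`, `t = τ N` -/
def S_REP : Prop := ∀ (N : ℕ), 0 < N → ∀ x : Fin N → S2, Function.Injective x →
  IntegrableOn (fun τ : ℝ => 1 / N * Ga (τ * N) x) (Ioi 0) ∧
    ∫ τ in Ioi (0 : ℝ), 1 / N * Ga (τ * N) x = E2 x / (N : ℝ) ^ 2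

/-- MEAN: `∫_0^1 (1 - e^(-4 τ N)) / (4 τ) dτ = (log (4 N) + γ) / 4 + o(1)` -/
def S_MEAN : Prop :=
  (∀ N : ℕ, 0 < N → IntegrableOn (fun τ : ℝ => (N : ℝ) * g2 (τ * N)) (Ioc 0 1)) ∧
  Tendsto (fun N : ℕ => (∫ τ in Ioc (0 : ℝ) 1, (N : ℝ) * g2 (τ * N)) - 1 / 4 * Real.log N) atTop
    (𝓝 (1 / 4 * (Real.log 4 + Real.eulerMascheroniConstant)))

/-- PSI: integrability of the profile, with the weight `max 1 τ` -/
def S_PSI : Prop := IntegrableOn (fun τ : ℝ => max 1 τ * Ps τ) (Ioi 0)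

/-- DM: the error term -/
def S_DM : Prop := IntegrableOn (fun τ : ℝ => Pool.Agent.J4.H93.RZ.Dm (4 * Real.pi * τ)) (Ioi 0) ∧
  ∫ τ in Ioi (0 : ℝ), Pool.Agent.J4.H93.RZ.Dm (4 * Real.pi * τ) ≤ 7 / 10 * 10 ^ (-8 : ℤ)

/-- MEL: the Mellin transform for `w > 1` (termwise) -/
def S_MEL : Prop := ∀ w : ℝ, 1 < w →
  IntegrableOn (fun τ : ℝ => τ ^ (w - 1) * Ps τ) (Ioi 0) ∧
    ∫ τ in Ioi (0 : ℝ), τ ^ (w - 1) * Ps τ =
      Real.Gamma w * (4 * Real.pi) ^ (-w) * Zt (2 * w) - 1 / (4 * (w - 1))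

/-- CONT: dominated convergence (from PSI) -/
def S_CONT : Prop := Tendsto (fun w : ℝ => ∫ τ in Ioi (0 : ℝ), τ ^ (w - 1) * Ps τ) (𝓝[>] 1)
  (𝓝 (∫ τ in Ioi (0 : ℝ), Ps τ))

/-- ZET: representations by `j² + jk + k²` -/
def S_ZET : Prop := ∀ w : ℝ, 1 < w → Zt (2 * w) = 6 * (√3 / 2) ^ w * Z1 w * L3 w

/-- HUR -/
def S_HUR : Prop := ∀ w : ℝ, 1 < w →
  HurwitzZeta.hurwitzZeta ((1 / 3 : ℝ) : UnitAddCircle) (w : ℂ) -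
    HurwitzZeta.hurwitzZeta ((2 / 3 : ℝ) : UnitAddCircle) (w : ℂ) = (((3 : ℝ) ^ w * L3 w : ℝ) : ℂ)

/-- LAU: the Stieltjes constants (may use HUR) -/
def S_LAU : Prop := ∃ c₁ c₂ : ℂ,
  Tendsto (fun s : ℂ => deriv (fun z : ℂ =>
    HurwitzZeta.hurwitzZeta ((1/3 : ℝ) : UnitAddCircle) z - 1 / (z - 1)) s) (𝓝[≠] (1 : ℂ)) (𝓝 (-c₁)) ∧
  Tendsto (fun s : ℂ => deriv (fun z : ℂ =>
    HurwitzZeta.hurwitzZeta ((2/3 : ℝ) : UnitAddCircle) z - 1 / (z - 1)) s) (𝓝[≠] (1 : ℂ)) (𝓝 (-c₂)) ∧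
  Tendsto (fun w : ℝ => ((3 : ℝ) ^ w * L3 w - Real.pi / √3) / (w - 1)) (𝓝[>] 1) (𝓝 (c₂.re - c₁.re))

/-- FIN: the limit -/
def S_FIN : Prop := ∀ D : ℝ,
  Tendsto (fun w : ℝ => ((3 : ℝ) ^ w * L3 w - Real.pi / √3) / (w - 1)) (𝓝[>] 1) (𝓝 D) →
  Tendsto (fun w : ℝ => Real.Gamma w * (4 * Real.pi) ^ (-w) * (6 * (√3 / 2) ^ w * Z1 w * L3 w) -
    1 / (4 * (w - 1))) (𝓝[>] 1)
    (𝓝 (-(1 / 4) * Real.log (8 * √3 * Real.pi) + √3 / (4 * Real.pi) * D))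

/-- LOW: the pointwise lower bound (from project SR) -/
def S_LOW : Prop := ∀ τ : ℝ, 0 < τ → ∀ ε : ℝ, 0 < ε → ∀ᶠ N : ℕ in atTop, ∀ x : Fin N → S2,
  En (4 * Real.pi * τ) - Pool.Agent.J4.H93.RZ.Dm (4 * Real.pi * τ) - 1 / (4 * τ) - ε ≤ Phi x τ

end Pool.Agent.J4.H95.R2
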