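import Pool.Agent.J4.H95.R2.Defs

set_option autoImplicit false

open MeasureTheory Set Filter Topology

namespace Pool.Agent.J4.H95.R2

namespace FINAux

/-- the constant -/
noncomputable def c0 : ℝ := (√3 / 2) / (4 * Real.pi * 3)

lemma c0_pos : 0 < c0 := by
  unfold c0
  positivity

lemma c0_eq : c0 = (8 * √3 * Real.pi)⁻¹ := by
  unfold c0
  have h3 : √3 * √3 = 3 := Real.mul_self_sqrt (by norm_num)
  have h : √3 ≠ 0 := by positivity
  have hpi := Real.pi_ne_zero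
  field_simp
  nlinarith

lemma log_c0 : Real.log c0 = -Real.log (8 * √3 * Real.pi) := by
  rw [c0_eq, Real.log_inv]

/-- the smooth factor -/
noncomputable def A (w : ℝ) : ℝ := 6 * Real.Gamma w * c0 ^ w

lemma A_one : A 1 = √3 / (4 * Real.pi) := by
  unfold A c0
  rw [Real.Gamma_one, Real.rpow_one]
  field_simp
  ring

lemma A_deriv : HasDerivAt A (A 1 * (-Real.eulerMascheroniConstant - Real.log (8 * √3 * Real.pi))) 1 := by
  have h1 : HasDerivAt Real.Gamma (-Real.eulerMascheroniConstant) 1 := Real.hasDerivAt_Gamma_one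
  have h2 : HasDerivAt (fun w : ℝ => c0 ^ w) (Real.log c0 * 1 * c0 ^ (1 : ℝ)) 1 :=
    (hasDerivAt_id (1 : ℝ)).const_rpow c0_pos
  have h3 := (h1.const_mul 6).mul h2
  refine h3.congr_deriv ?_
  unfold A
  rw [log_c0, Real.Gamma_one]
  ring

lemma A_eq (w : ℝ) : Real.Gamma w * (4 * Real.pi) ^ (-w) * (6 * (√3 / 2) ^ w) * (3 : ℝ) ^ (-w) = A w := by
  unfold A c0
  have hp : 0 < 4 * Real.pi := by positivity
  have h3 : (0 : ℝ) ≤ √3 / 2 := by positivity
  have e : ((√3 / 2) / (4 * Real.pi * 3)) ^ w = (√3 / 2) ^ w / ((4 * Real.pi) ^ w * 3 ^ w) := by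
    rw [Real.div_rpow h3 (by positivity), Real.mul_rpow hp.le (by norm_num)]
  rw [e, Real.rpow_neg hp.le, Real.rpow_neg (by norm_num : (0 : ℝ) ≤ 3)]
  have h4 : (4 * Real.pi) ^ w ≠ 0 := (Real.rpow_pos_of_pos hp w).ne'
  have h5 : (3 : ℝ) ^ w ≠ 0 := (Real.rpow_pos_of_pos (by norm_num) w).ne'
  field_simp

lemma zeta_lim : Tendsto (fun w : ℝ => (∑' n : ℕ, ((n : ℝ) + 1) ^ (-w)) - 1 / (w - 1)) (𝓝[>] 1)
    (𝓝 Real.eulerMascheroniConstant) := by
  have h := ZetaAsymptotics.tendsto_riemannZeta_sub_one_div_nhds_right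
  have h2 : Tendsto (fun w : ℝ => (riemannZeta (w : ℂ) - 1 / ((w : ℂ) - 1)).re) (𝓝[>] 1)
      (𝓝 ((Real.eulerMascheroniConstant : ℂ)).re) := (Complex.continuous_re.tendsto _).comp h
  rw [Complex.ofReal_re] at h2
  refine h2.congr' ?_
  filter_upwards [self_mem_nhdsWithin] with w hw
  have hw1 : (1 : ℝ) < w := hw
  rw [zeta_eq_tsum_one_div_nat_add_one_cpow (by simpa using hw1)]
  have e1 : ∀ n : ℕ, 1 / ((n : ℂ) + 1) ^ (w : ℂ) = ((((n : ℝ) + 1) ^ (-w) : ℝ) : ℂ) := by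
    intro n
    have hn : (0 : ℝ) ≤ (n : ℝ) + 1 := by positivity
    rw [Real.rpow_neg hn, Complex.ofReal_inv, Complex.ofReal_cpow hn]
    push_cast
    rw [one_div]
  rw [tsum_congr e1, ← Complex.ofReal_tsum]
  have e2 : (1 : ℂ) / ((w : ℂ) - 1) = ((1 / (w - 1) : ℝ) : ℂ) := by push_cast; rfl
  rw [e2, ← Complex.ofReal_sub, Complex.ofReal_re]

theorem fin (B Z : ℝ → ℝ) (D g : ℝ)
    (hB : Tendsto (fun w : ℝ => (B w - Real.pi / √3) / (w - 1)) (𝓝[>] 1) (𝓝 D))
    (hZ : Tendsto (fun w : ℝ => Z w - 1 / (w - 1)) (𝓝[>] 1) (𝓝 g)) :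
    Tendsto (fun w : ℝ => A w * Z w * B w - 1 / (4 * (w - 1))) (𝓝[>] 1)
      (𝓝 (A 1 * g * (Real.pi / √3) + (A 1 * (-Real.eulerMascheroniConstant - Real.log (8 * √3 * Real.pi)) *
        (Real.pi / √3) + A 1 * D))) := by
  have hw0 : Tendsto (fun w : ℝ => w - 1) (𝓝[>] 1) (𝓝 0) := by
    have : Tendsto (fun w : ℝ => w - 1) (𝓝 1) (𝓝 (1 - 1)) := (continuous_id.sub continuous_const).tendsto 1
    rw [sub_self] at this
    exact this.mono_left nhdsWithin_le_nhds
  have hA : Tendsto A (𝓝[>] 1) (𝓝 (A 1)) := A_deriv.continuousAt.tendsto.mono_left nhdsWithin_le_nhds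
  have hAs : Tendsto (fun w : ℝ => (A w - A 1) / (w - 1)) (𝓝[>] 1)
      (𝓝 (A 1 * (-Real.eulerMascheroniConstant - Real.log (8 * √3 * Real.pi)))) := by
    have h1 := A_deriv.tendsto_slope
    have h2 : Tendsto (slope A 1) (𝓝[>] 1) _ := h1.mono_left (nhdsWithin_mono _ (by
      intro x hx
      exact (ne_of_gt hx)))
    refine h2.congr fun w => ?_
    rw [slope_def_field]
  have hBl : Tendsto B (𝓝[>] 1) (𝓝 (Real.pi / √3)) := by
    have h1 := (hB.mul hw0).add_const (Real.pi / √3)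
    rw [mul_zero, zero_add] at h1
    refine h1.congr' ?_
    filter_upwards [self_mem_nhdsWithin] with w hw
    have hw1 : w - 1 ≠ 0 := by
      have : (1 : ℝ) < w := hw
      linarith
    field_simp
    ring
  have h1 := ((hA.mul hZ).mul hBl).add ((hAs.mul hBl).add (hB.const_mul (A 1)))
  refine h1.congr' ?_
  filter_upwards [self_mem_nhdsWithin] with w hw
  have hw1 : w - 1 ≠ 0 := by
    have : (1 : ℝ) < w := hw
    linarith
  have hA1 : A 1 * (Real.pi / √3) = 1 / 4 := by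
    rw [A_one]
    have h : √3 ≠ 0 := by positivity
    have hpi := Real.pi_ne_zero
    field_simp
  have e : A w * (Z w - 1 / (w - 1)) * B w + ((A w - A 1) / (w - 1) * B w + A 1 * ((B w - Real.pi / √3) / (w - 1))) =
      A w * Z w * B w - (A 1 * (Real.pi / √3)) / (w - 1) := by
    field_simp
    ring
  rw [e, hA1]
  field_simp

end FINAux

theorem t_FIN : S_FIN := by
  intro D hD
  have h := FINAux.fin (fun w => (3 : ℝ) ^ w * L3 w) Z1 D Real.eulerMascheroniConstant hD FINAux.zeta_lim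
  have hlim : FINAux.A 1 * Real.eulerMascheroniConstant * (Real.pi / √3) +
      (FINAux.A 1 * (-Real.eulerMascheroniConstant - Real.log (8 * √3 * Real.pi)) * (Real.pi / √3) +
        FINAux.A 1 * D) = -(1 / 4) * Real.log (8 * √3 * Real.pi) + √3 / (4 * Real.pi) * D := by
    rw [FINAux.A_one]
    have h1 : √3 ≠ 0 := by positivity
    have h2 := Real.pi_ne_zero
    field_simp
    ring
  rw [hlim] at h
  refine h.congr fun w => ?_
  have e := FINAux.A_eq w
  rw [← e]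
  have h5 : (3 : ℝ) ^ (-w) * 3 ^ w = 1 := by
    rw [← Real.rpow_add (by norm_num), neg_add_cancel, Real.rpow_zero]
  have e2 : Real.Gamma w * (4 * Real.pi) ^ (-w) * (6 * (√3 / 2) ^ w) * (3 : ℝ) ^ (-w) * Z1 w *
      ((3 : ℝ) ^ w * L3 w) = Real.Gamma w * (4 * Real.pi) ^ (-w) * (6 * (√3 / 2) ^ w) * Z1 w * L3 w *
        ((3 : ℝ) ^ (-w) * 3 ^ w) := by ring
  rw [e2, h5]
  ring

end Pool.Agent.J4.H95.R2
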