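import Pool.Agent.J4.H95.R2.HUR
import Pool.Agent.Helper88.SE3.P_L1_val

set_option autoImplicit false

open MeasureTheory Set Filter Topology

namespace Pool.Agent.J4.H95.R2

namespace LAUAux

open HurwitzZeta

/-- the entire function equal to `ζ(z,a) - 1/(z-1)` outside `1` -/
noncomputable def F (a : UnitAddCircle) (z : ℂ) : ℂ :=
  (hurwitzZeta a z - 1 / (z - 1) / Complex.Gammaℝ z) +
    dslope (fun s : ℂ => (Complex.Gammaℝ s)⁻¹) 1 z

theorem F_eq (a : UnitAddCircle) {z : ℂ} (hz : z ≠ 1) :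
    F a z = hurwitzZeta a z - 1 / (z - 1) := by
  unfold F
  rw [dslope_of_ne _ hz, slope_def_field, Complex.Gammaℝ_one]
  have h1 : z - 1 ≠ 0 := sub_ne_zero.mpr hz
  rw [div_eq_mul_inv (1 / (z - 1)) (Complex.Gammaℝ z)]
  field_simp
  ring

theorem F_diff (a : UnitAddCircle) : Differentiable ℂ (F a) := by
  have hG : Differentiable ℂ (fun s : ℂ => (Complex.Gammaℝ s)⁻¹) := Complex.differentiable_Gammaℝ_inv
  have h2 : Differentiable ℂ (dslope (fun s : ℂ => (Complex.Gammaℝ s)⁻¹) 1) := by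
    rw [← differentiableOn_univ]
    rw [Complex.differentiableOn_dslope univ_mem]
    exact hG.differentiableOn
  have h1 : Differentiable ℂ (fun z : ℂ => hurwitzZeta a z - 1 / (z - 1) / Complex.Gammaℝ z) := by
    intro z
    by_cases hz : z = 1
    · rw [hz]; exact differentiableAt_hurwitzZeta_sub_one_div a
    · refine (differentiableAt_hurwitzZeta a hz).sub ?_
      have h3 : (fun z : ℂ => 1 / (z - 1) / Complex.Gammaℝ z) =
          fun z : ℂ => 1 / (z - 1) * (Complex.Gammaℝ z)⁻¹ := by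
        funext z; rw [div_eq_mul_inv (1 / (z - 1)) (Complex.Gammaℝ z)]
      rw [h3]
      refine DifferentiableAt.mul ?_ (hG z)
      have h4 : z - 1 ≠ 0 := sub_ne_zero.mpr hz
      fun_prop (disch := assumption)
  exact h1.add h2

theorem F_deriv (a : UnitAddCircle) :
    Tendsto (fun s : ℂ => deriv (fun z : ℂ => hurwitzZeta a z - 1 / (z - 1)) s) (𝓝[≠] (1 : ℂ))
      (𝓝 (deriv (F a) 1)) := by
  have h1 : Continuous (deriv (F a)) := by
    have h2 : ContDiff ℂ 2 (F a) := (F_diff a).contDiff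
    exact h2.continuous_deriv (by norm_num)
  have h3 : Tendsto (deriv (F a)) (𝓝[≠] (1 : ℂ)) (𝓝 (deriv (F a) 1)) :=
    (h1.tendsto 1).mono_left nhdsWithin_le_nhds
  refine h3.congr' ?_
  filter_upwards [self_mem_nhdsWithin] with s hs
  refine Filter.EventuallyEq.deriv_eq ?_
  have hs' : s ≠ 1 := hs
  filter_upwards [isOpen_ne.mem_nhds hs'] with z hz
  exact F_eq a hz

theorem L3_lim : Tendsto (fun w : ℝ => L3 w) (𝓝[>] 1) (𝓝 (Real.pi / (3 * √3))) := by
  have h0 : Real.pi / (3 * √3) = ∑' k : ℕ, (1 / (3 * (k : ℝ) + 1) - 1 / (3 * (k : ℝ) + 2)) :=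
    Pool.Agent.Helper88.SE.L1_val.tsum_eq.symm
  rw [h0]
  unfold L3
  refine tendsto_tsum_of_dominated_convergence (bound := fun k : ℕ => 2 * (1 / ((k : ℝ) + 1) ^ 2)) ?_ ?_ ?_
  · refine Summable.mul_left _ ?_
    have h1 := (Real.summable_one_div_nat_pow (p := 2)).mpr (by norm_num)
    have h2 := (summable_nat_add_iff 1).mpr h1
    simpa using h2
  · intro k
    have hk : (0:ℝ) ≤ k := Nat.cast_nonneg k
    have e1 : (3 * (k : ℝ) + 1) ≠ 0 := by positivity
    have e2 : (3 * (k : ℝ) + 2) ≠ 0 := by positivity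
    have e3 : ContinuousAt (fun w : ℝ => (3 * (k : ℝ) + 1) ^ (-w) - (3 * (k : ℝ) + 2) ^ (-w)) 1 := by
      refine ContinuousAt.sub ?_ ?_
      · exact continuousAt_const.rpow continuousAt_id.neg (Or.inl e1)
      · exact continuousAt_const.rpow continuousAt_id.neg (Or.inl e2)
    have e4 := e3.tendsto.mono_left (nhdsWithin_le_nhds (s := Ioi (1:ℝ)))
    simp only [Real.rpow_neg_one] at e4
    simpa only [one_div] using e4
  · have h5 : Ioo (1:ℝ) 2 ∈ 𝓝[>] (1:ℝ) := Ioo_mem_nhdsGT (by norm_num)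
    filter_upwards [h5] with w hw k
    have hk : (0:ℝ) ≤ k := Nat.cast_nonneg k
    have p1 : (0:ℝ) < 3 * (k : ℝ) + 1 := by positivity
    have p2 : (0:ℝ) < 3 * (k : ℝ) + 2 := by positivity
    have w0 : 0 < w := by linarith [hw.1]
    -- mean value: a^(-w) - (a+1)^(-w) ≤ w a^(-w-1)
    have m1 : (3 * (k : ℝ) + 2) ^ (-w) ≤ (3 * (k : ℝ) + 1) ^ (-w) :=
      Real.rpow_le_rpow_of_nonpos p1 (by linarith) (by linarith)
    rw [Real.norm_of_nonneg (by linarith)]
    -- Bernoulli: (1 - 1/(a+1))^w ≥ 1 - w/(a+1)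
    have b1 : 1 + w * (-(1 / (3 * (k : ℝ) + 2))) ≤ (1 + -(1 / (3 * (k : ℝ) + 2))) ^ w := by
      refine one_add_mul_self_le_rpow_one_add ?_ hw.1.le
      rw [neg_le_neg_iff, div_le_one p2]; linarith
    have b2 : (1 + -(1 / (3 * (k : ℝ) + 2))) = (3 * (k : ℝ) + 1) / (3 * (k : ℝ) + 2) := by
      field_simp; ring
    rw [b2, Real.div_rpow p1.le p2.le] at b1
    have q1 : 0 < (3 * (k : ℝ) + 1) ^ w := Real.rpow_pos_of_pos p1 w
    have q2 : 0 < (3 * (k : ℝ) + 2) ^ w := Real.rpow_pos_of_pos p2 w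
    have b3 : (3 * (k : ℝ) + 1) ^ (-w) - (3 * (k : ℝ) + 2) ^ (-w) =
        (3 * (k : ℝ) + 1) ^ (-w) * (1 - (3 * (k : ℝ) + 1) ^ w / (3 * (k : ℝ) + 2) ^ w) := by
      rw [Real.rpow_neg p1.le, Real.rpow_neg p2.le]
      field_simp
    rw [b3]
    have b4 : 1 - (3 * (k : ℝ) + 1) ^ w / (3 * (k : ℝ) + 2) ^ w ≤ w / (3 * (k : ℝ) + 2) := by
      have : w * (-(1 / (3 * (k : ℝ) + 2))) = -(w / (3 * (k : ℝ) + 2)) := by ring
      linarith
    have b5 : (3 * (k : ℝ) + 1) ^ (-w) ≤ 1 / (3 * (k : ℝ) + 1) := by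
      rw [one_div, ← Real.rpow_neg_one]
      exact Real.rpow_le_rpow_of_exponent_le (by linarith) (by linarith [hw.1])
    have b6 : w / (3 * (k : ℝ) + 2) ≤ 2 / (3 * (k : ℝ) + 2) := by
      gcongr; exact hw.2.le
    calc (3 * (k : ℝ) + 1) ^ (-w) * (1 - (3 * (k : ℝ) + 1) ^ w / (3 * (k : ℝ) + 2) ^ w)
        ≤ (3 * (k : ℝ) + 1) ^ (-w) * (2 / (3 * (k : ℝ) + 2)) := by
          gcongr; exact b4.trans b6
      _ ≤ 1 / (3 * (k : ℝ) + 1) * (2 / (3 * (k : ℝ) + 2)) := by gcongr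
      _ = 2 * (1 / ((3 * (k : ℝ) + 1) * (3 * (k : ℝ) + 2))) := by field_simp
      _ ≤ 2 * (1 / ((k : ℝ) + 1) ^ 2) := by
          gcongr
          nlinarith

end LAUAux

theorem t_LAU : S_LAU := by
  refine ⟨-deriv (LAUAux.F ((1/3 : ℝ) : UnitAddCircle)) 1, -deriv (LAUAux.F ((2/3 : ℝ) : UnitAddCircle)) 1,
    ?_, ?_, ?_⟩
  · rw [neg_neg]; exact LAUAux.F_deriv _
  · rw [neg_neg]; exact LAUAux.F_deriv _
  · set G : ℂ → ℂ := fun z => LAUAux.F ((1/3 : ℝ) : UnitAddCircle) z - LAUAux.F ((2/3 : ℝ) : UnitAddCircle) z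
      with hG
    have hGd : HasDerivAt G (deriv (LAUAux.F ((1/3 : ℝ) : UnitAddCircle)) 1 -
        deriv (LAUAux.F ((2/3 : ℝ) : UnitAddCircle)) 1) ((1 : ℝ) : ℂ) := by
      rw [Complex.ofReal_one]
      exact ((LAUAux.F_diff _) 1).hasDerivAt.sub ((LAUAux.F_diff _) 1).hasDerivAt
    have hg : HasDerivAt (fun w : ℝ => (G w).re) (deriv (LAUAux.F ((1/3 : ℝ) : UnitAddCircle)) 1 -
        deriv (LAUAux.F ((2/3 : ℝ) : UnitAddCircle)) 1).re 1 := hGd.real_of_complex
    have hGw : ∀ w : ℝ, 1 < w → (G w).re = (3 : ℝ) ^ w * L3 w := by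
      intro w hw
      have hne : (w : ℂ) ≠ 1 := by
        intro h
        have : w = 1 := by exact_mod_cast h
        linarith
      have h1 : G w = (((3 : ℝ) ^ w * L3 w : ℝ) : ℂ) := by
        rw [hG]
        simp only [LAUAux.F_eq _ hne]
        rw [← t_HUR w hw]
        ring
      rw [h1, Complex.ofReal_re]
    have hG1 : (G 1).re = Real.pi / √3 := by
      have a1 : Tendsto (fun w : ℝ => (G w).re) (𝓝[>] 1) (𝓝 (G 1).re) := by
        have := hg.continuousAt.tendsto.mono_left (nhdsWithin_le_nhds (s := Ioi (1:ℝ)))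
        simpa using this
      have a2 : Tendsto (fun w : ℝ => (3 : ℝ) ^ w * L3 w) (𝓝[>] 1)
          (𝓝 ((3 : ℝ) ^ (1:ℝ) * (Real.pi / (3 * √3)))) := by
        refine Tendsto.mul ?_ LAUAux.L3_lim
        exact (Real.continuousAt_const_rpow (by norm_num)).tendsto.mono_left nhdsWithin_le_nhds
      have a3 : Tendsto (fun w : ℝ => (G w).re) (𝓝[>] 1)
          (𝓝 ((3 : ℝ) ^ (1:ℝ) * (Real.pi / (3 * √3)))) := by
        refine a2.congr' ?_
        filter_upwards [self_mem_nhdsWithin] with w hw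
        exact (hGw w hw).symm
      rw [tendsto_nhds_unique a1 a3, Real.rpow_one]
      have : √3 ≠ 0 := by positivity
      field_simp
    have h7 := hasDerivAt_iff_tendsto_slope.mp hg
    have h8 : Tendsto (slope (fun w : ℝ => (G w).re) 1) (𝓝[>] 1)
        (𝓝 (deriv (LAUAux.F ((1/3 : ℝ) : UnitAddCircle)) 1 -
        deriv (LAUAux.F ((2/3 : ℝ) : UnitAddCircle)) 1).re) :=
      h7.mono_left (nhdsWithin_mono _ (fun w (hw : 1 < w) => by
        simp only [mem_compl_iff, mem_singleton_iff]; exact hw.ne'))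
    have h9 : (deriv (LAUAux.F ((1/3 : ℝ) : UnitAddCircle)) 1 -
        deriv (LAUAux.F ((2/3 : ℝ) : UnitAddCircle)) 1).re =
        (-deriv (LAUAux.F ((2/3 : ℝ) : UnitAddCircle)) 1).re -
        (-deriv (LAUAux.F ((1/3 : ℝ) : UnitAddCircle)) 1).re := by
      simp only [Complex.sub_re, Complex.neg_re]; ring
    rw [← h9]
    refine h8.congr' ?_
    filter_upwards [self_mem_nhdsWithin] with w hw
    rw [slope_def_field, hGw w hw]
    simp only [Complex.ofReal_one, hG1]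

end Pool.Agent.J4.H95.R2
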