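import Pool.Agent.J4.H95.R2.Defs

/-!
# Project R2, piece MEAN (helper20)
-/

set_option autoImplicit false

open MeasureTheory Set Filter Topology

namespace Pool.Agent.J4.H95.R2

namespace MEANbAux

open Pool.Agent.TH478.CE Pool.Agent.J4.H93.SR Asymptotics

/-- `(1 - e^(-u)) / u` -/
noncomputable def ph (u : ℝ) : ℝ := (1 - Real.exp (-u)) / u

lemma g2_eq (t : ℝ) : g2 t = ph (4 * t) := rfl

lemma ph_bound {u : ℝ} (hu : 0 < u) : 0 ≤ ph u ∧ ph u ≤ 1 := by
  have h1 := Real.add_one_le_exp (-u)
  have h2 : Real.exp (-u) ≤ 1 := Real.exp_le_one_iff.2 (by linarith)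
  unfold ph
  exact ⟨div_nonneg (by linarith) hu.le, (div_le_one hu).2 (by linarith)⟩

lemma ph_meas : Measurable ph := by
  unfold ph
  fun_prop

lemma ph_int {a b : ℝ} (ha : 0 ≤ a) (hb : 0 ≤ b) : IntervalIntegrable ph volume a b := by
  refine (intervalIntegrable_const (c := (1 : ℝ))).mono_fun ph_meas.aestronglyMeasurable ?_
  filter_upwards [ae_restrict_mem measurableSet_uIoc] with u hu
  have hu0 : 0 < u := lt_of_le_of_lt (le_min ha hb) hu.1
  simp only [Real.norm_eq_abs]
  rw [abs_of_nonneg (ph_bound hu0).1]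
  simpa using (ph_bound hu0).2

lemma log_exp_complex :
    IntegrableOn (fun t : ℝ => ((Real.log t * Real.exp (-t) : ℝ) : ℂ)) (Ioi 0) ∧
    ∫ t in Ioi (0 : ℝ), ((Real.log t * Real.exp (-t) : ℝ) : ℂ) =
      ((-Real.eulerMascheroniConstant : ℝ) : ℂ) := by
  have h1 := (mellin_hasDerivAt_of_isBigO_rpow (E := ℂ) (a := 2) (b := 0)
    (f := fun t : ℝ => ((Real.exp (-t) : ℝ) : ℂ)) (s := 1) (by
      refine (Continuous.continuousOn ?_).locallyIntegrableOn measurableSet_Ioi
      exact Complex.continuous_ofReal.comp (Real.continuous_exp.comp continuous_neg)) (by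
      rw [← isBigO_norm_left]
      simp_rw [Complex.norm_real, isBigO_norm_left]
      simpa only [neg_one_mul] using (isLittleO_exp_neg_mul_rpow_atTop zero_lt_one _).isBigO)
    (by norm_num) (by
      simp_rw [neg_zero, Real.rpow_zero]
      refine isBigO_const_of_tendsto (?_ : Tendsto _ _ (𝓝 (1 : ℂ))) one_ne_zero
      rw [(by simp : (1 : ℂ) = Real.exp (-0))]
      exact (Complex.continuous_ofReal.comp
        (Real.continuous_exp.comp continuous_neg)).continuousWithinAt) (by norm_num)).1
  have h2 : IntegrableOn (fun t : ℝ => ((Real.log t * Real.exp (-t) : ℝ) : ℂ)) (Ioi 0) := by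
    have h1' : IntegrableOn (fun t : ℝ => (t : ℂ) ^ ((1 : ℂ) - 1) •
        (Real.log t • ((Real.exp (-t) : ℝ) : ℂ))) (Ioi 0) := h1
    refine h1'.congr_fun (fun t _ => ?_) measurableSet_Ioi
    simp
  refine ⟨h2, ?_⟩
  have h3 := Complex.hasDerivAt_GammaIntegral (s := 1) (by norm_num)
  have h4 : HasDerivAt Complex.GammaIntegral (-(Real.eulerMascheroniConstant : ℂ)) 1 := by
    refine Complex.hasDerivAt_Gamma_one.congr_of_eventuallyEq ?_
    have : IsOpen {s : ℂ | 0 < s.re} := Complex.continuous_re.isOpen_preimage _ isOpen_Ioi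
    filter_upwards [this.mem_nhds (show (0 : ℝ) < (1 : ℂ).re by simp)] with a ha
    exact (Complex.Gamma_eq_integral ha).symm
  have h5 := h3.unique h4
  rw [Complex.ofReal_neg, ← h5]
  refine setIntegral_congr_fun measurableSet_Ioi fun t _ => ?_
  simp

lemma log_exp : IntegrableOn (fun t : ℝ => Real.log t * Real.exp (-t)) (Ioi 0) ∧
    ∫ t in Ioi (0 : ℝ), Real.log t * Real.exp (-t) = -Real.eulerMascheroniConstant := by
  obtain ⟨h1, h2⟩ := log_exp_complex
  have h3 : IntegrableOn (fun t : ℝ => Real.log t * Real.exp (-t)) (Ioi 0) := by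
    exact (Integrable.re h1).congr (ae_of_all _ fun t => Complex.ofReal_re _)
  refine ⟨h3, ?_⟩
  have h4 : ∫ t in Ioi (0 : ℝ), ((Real.log t * Real.exp (-t) : ℝ) : ℂ) =
      ((∫ t in Ioi (0 : ℝ), Real.log t * Real.exp (-t) : ℝ) : ℂ) := integral_ofReal
  rw [h4] at h2
  exact_mod_cast h2

lemma parts {x : ℝ} (hx : 0 < x) : ∫ u in (0 : ℝ)..x, ph u =
    (1 - Real.exp (-x)) * Real.log x - ∫ u in (0 : ℝ)..x, Real.log u * Real.exp (-u) := by
  have hi1 : IntervalIntegrable ph volume 0 x := ph_int le_rfl hx.le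
  have hi2 : IntervalIntegrable (fun u => Real.log u * Real.exp (-u)) volume 0 x := by
    rw [intervalIntegrable_iff_integrableOn_Ioc_of_le hx.le]
    exact log_exp.1.mono_set Ioc_subset_Ioi_self
  have h1 : ∫ u in (0 : ℝ)..x, (ph u + Real.log u * Real.exp (-u)) =
      (1 - Real.exp (-x)) * Real.log x - (1 - Real.exp (-0)) * Real.log 0 := by
    refine intervalIntegral.integral_eq_sub_of_hasDerivAt_of_le
      (f := fun u => (1 - Real.exp (-u)) * Real.log u) hx.le ?_ (fun u hu => ?_) (hi1.add hi2)
    · intro u hu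
      rcases hu.1.eq_or_lt with h0 | h0
      · rw [← h0]
        have h2 : Tendsto (fun u : ℝ => |u * Real.log u|) (𝓝[Icc 0 x] 0) (𝓝 0) := by
          have := (Real.continuous_mul_log.abs).continuousAt (x := 0)
          have h3 : Tendsto (fun u : ℝ => |u * Real.log u|) (𝓝 0) (𝓝 |0 * Real.log 0|) := this
          rw [zero_mul, abs_zero] at h3
          exact h3.mono_left nhdsWithin_le_nhds
        have h4 : Tendsto (fun u : ℝ => (1 - Real.exp (-u)) * Real.log u) (𝓝[Icc 0 x] 0)
            (𝓝 0) := by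
          refine squeeze_zero_norm' ?_ h2
          filter_upwards [self_mem_nhdsWithin] with v hv
          rw [Real.norm_eq_abs, abs_mul, abs_mul]
          refine mul_le_mul_of_nonneg_right ?_ (abs_nonneg _)
          have a1 := Real.add_one_le_exp (-v)
          have a2 : Real.exp (-v) ≤ 1 := Real.exp_le_one_iff.2 (by linarith [hv.1])
          rw [abs_of_nonneg (by linarith), abs_of_nonneg hv.1]
          linarith
        have h5 : (1 - Real.exp (-(0 : ℝ))) * Real.log 0 = 0 := by simp
        unfold ContinuousWithinAt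
        beta_reduce
        rw [h5]
        exact h4
      · refine ContinuousAt.continuousWithinAt ?_
        exact ContinuousAt.mul (by fun_prop) (Real.continuousAt_log h0.ne')
    · have h0 : u ≠ 0 := hu.1.ne'
      have h2 : HasDerivAt (fun u : ℝ => 1 - Real.exp (-u)) (Real.exp (-u)) u := by
        have h3 : HasDerivAt (fun u : ℝ => Real.exp (-u)) (Real.exp (-u) * -1) u :=
          (hasDerivAt_neg u).exp
        exact (h3.const_sub 1).congr_deriv (by ring)
      have h3 := h2.fun_mul (Real.hasDerivAt_log h0)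
      refine h3.congr_deriv ?_
      unfold ph
      ring
  rw [intervalIntegral.integral_add hi1 hi2] at h1
  simp only [neg_zero, Real.exp_zero, sub_self, Real.log_zero, mul_zero, sub_zero] at h1
  linarith

end MEANbAux

open MEANbAux Pool.Agent.J4.H93.SR in
/-- MEAN -/
theorem t_MEAN' : S_MEAN := by
  have hg : ∀ (N : ℕ) (τ : ℝ), (N : ℝ) * g2 (τ * N) = N * ph (4 * N * τ) := by
    intro N τ
    rw [g2_eq]
    congr 2
    ring
  have hint : ∀ N : ℕ, 0 < N → IntegrableOn (fun τ : ℝ => (N : ℝ) * g2 (τ * N)) (Ioc 0 1) := by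
    intro N hN
    have hN' : (0 : ℝ) < N := by exact_mod_cast hN
    rw [← intervalIntegrable_iff_integrableOn_Ioc_of_le zero_le_one]
    simp only [hg]
    refine IntervalIntegrable.const_mul ?_ _
    refine (intervalIntegrable_const (c := (1 : ℝ))).mono_fun
      (ph_meas.comp (measurable_const.mul measurable_id)).aestronglyMeasurable ?_
    filter_upwards [ae_restrict_mem measurableSet_uIoc] with u hu
    rw [uIoc_of_le zero_le_one] at hu
    have hu0 : 0 < 4 * N * u := mul_pos (by positivity) hu.1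
    simp only [Real.norm_eq_abs, Function.comp_apply, id]
    rw [abs_of_nonneg (ph_bound hu0).1]
    simpa using (ph_bound hu0).2
  refine ⟨hint, ?_⟩
  have h1 : ∀ᶠ N : ℕ in atTop, (∫ τ in Ioc (0 : ℝ) 1, (N : ℝ) * g2 (τ * N)) -
      1 / 4 * Real.log N = 1 / 4 * (Real.log 4 - Real.log (4 * N) * Real.exp (-(4 * N)) -
        ∫ u in (0 : ℝ)..4 * N, Real.log u * Real.exp (-u)) := by
    filter_upwards [eventually_gt_atTop 0] with N hN
    have hN' : (0 : ℝ) < N := by exact_mod_cast hN
    rw [← intervalIntegral.integral_of_le zero_le_one]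
    simp only [hg]
    rw [intervalIntegral.integral_const_mul,
      intervalIntegral.integral_comp_mul_left ph (by positivity : (4 * (N : ℝ)) ≠ 0), mul_zero,
      mul_one, parts (by positivity), smul_eq_mul]
    rw [Real.log_mul (by norm_num) hN'.ne']
    field_simp
    ring
  refine Tendsto.congr' (h1.mono fun N h => h.symm) ?_
  have hx : Tendsto (fun N : ℕ => 4 * (N : ℝ)) atTop atTop :=
    tendsto_natCast_atTop_atTop.const_mul_atTop (by norm_num)
  have h2 : Tendsto (fun N : ℕ => ∫ u in (0 : ℝ)..4 * N, Real.log u * Real.exp (-u)) atTop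
      (𝓝 (-Real.eulerMascheroniConstant)) := by
    rw [← log_exp.2]
    exact intervalIntegral_tendsto_integral_Ioi 0 log_exp.1 hx
  have h3 : Tendsto (fun N : ℕ => Real.log (4 * N) * Real.exp (-(4 * N))) atTop (𝓝 0) := by
    have h4 : Tendsto (fun x : ℝ => Real.log x * Real.exp (-x)) atTop (𝓝 0) := by
      have h5 : Tendsto (fun x : ℝ => x * Real.exp (-x)) atTop (𝓝 0) := by
        have := Real.tendsto_pow_mul_exp_neg_atTop_nhds_zero 1
        simpa using this
      refine squeeze_zero_norm' ?_ h5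
      filter_upwards [eventually_ge_atTop 1] with x hx
      rw [Real.norm_eq_abs, abs_mul, abs_of_pos (Real.exp_pos _),
        abs_of_nonneg (Real.log_nonneg hx)]
      refine mul_le_mul_of_nonneg_right ?_ (Real.exp_pos _).le
      have := Real.log_le_sub_one_of_pos (by linarith : 0 < x)
      linarith
    exact h4.comp hx
  have h6 := ((tendsto_const_nhds (x := Real.log 4)).sub h3).sub h2
  have h7 := h6.const_mul (1 / 4)
  convert h7 using 2
  ring

end Pool.Agent.J4.H95.R2
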