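import Pool.Agent.J4.H95.R2.Defs

/-!
# Project R2, piece MEL: the Mellin transform of the planar profile
-/

set_option autoImplicit false

open MeasureTheory Set Filter Topology

namespace Pool.Agent.J4.H95.R2

open Pool.Agent.TH478.CE Pool.Agent.J4.H93.SR

namespace MelAux

theorem norm_hexPt_sq (m : ℤ × ℤ) : ‖hexPt m‖ ^ 2 = c3 * qf m := by
  have h1 : ((4 / 3 : ℝ) ^ (1 / 4 : ℝ)) ^ 2 = c3 := by
    have h2 : 0 ≤ (4 / 3 : ℝ) ^ (1 / 4 : ℝ) := by positivity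
    have h3 : (((4 / 3 : ℝ) ^ (1 / 4 : ℝ)) ^ 2) ^ 2 = c3 ^ 2 := by
      rw [c3_sq, ← pow_mul, ← Real.rpow_natCast, ← Real.rpow_mul (by norm_num)]
      norm_num
    exact (pow_left_inj₀ (by positivity) c3_pos.le (by norm_num)).1 h3
  have h4 : (√3 : ℝ) ^ 2 = 3 := Real.sq_sqrt (by norm_num)
  rw [EuclideanSpace.norm_sq_eq, Fin.sum_univ_two]
  unfold hexPt qf
  simp only [PiLp.toLp_apply, Matrix.cons_val_zero, Matrix.cons_val_one, Real.norm_eq_abs, sq_abs]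
  rw [mul_pow, mul_pow, h1]
  have : ((m.1 : ℝ) + (m.2 : ℝ) / 2) ^ 2 + (√3 / 2 * (m.2 : ℝ)) ^ 2 =
      (m.1 : ℝ) ^ 2 + (m.1 : ℝ) * (m.2 : ℝ) + (m.2 : ℝ) ^ 2 := by
    rw [mul_pow, div_pow, h4]
    ring
  rw [← mul_add, this]

/-- sup norm of an integer vector -/
def sn (m : ℤ × ℤ) : ℝ := max |(m.1 : ℝ)| |(m.2 : ℝ)|

theorem sn_nonneg (m : ℤ × ℤ) : 0 ≤ sn m := le_max_of_le_left (abs_nonneg _)

theorem summable_sn {s : ℝ} (hs : 2 < s) : Summable (fun m : ℤ × ℤ => sn m ^ (-s)) := by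
  have h := EisensteinSeries.summable_one_div_norm_rpow hs
  have h2 := h.comp_injective (finTwoArrowEquiv ℤ).symm.injective
  refine h2.congr (fun m => ?_)
  simp only [Function.comp]
  congr 1
  unfold sn
  rw [EisensteinSeries.norm_eq_max_natAbs]
  simp [finTwoArrowEquiv, Nat.cast_natAbs]

theorem sn_le (m : ℤ × ℤ) : 1 / 2 * sn m ≤ ‖hexPt m‖ := by
  have h2 : (1 / 2 * sn m) ^ 2 ≤ ‖hexPt m‖ ^ 2 := by
    rw [norm_hexPt_sq]
    have h3 := one_lt_c3
    have h4 : (1 / 2 * sn m) ^ 2 ≤ qf m := by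
      unfold sn qf
      rcases max_choice |(m.1 : ℝ)| |(m.2 : ℝ)| with h | h
      · rw [h, mul_pow, sq_abs]
        nlinarith [sq_nonneg ((m.1 : ℝ) + 2 * m.2), sq_nonneg (m.1 : ℝ)]
      · rw [h, mul_pow, sq_abs]
        nlinarith [sq_nonneg (2 * (m.1 : ℝ) + m.2), sq_nonneg (m.2 : ℝ)]
    have h5 := qf_nonneg m
    have h6 : qf m ≤ c3 * qf m := by nlinarith
    linarith
  exact le_of_sq_le_sq h2 (norm_nonneg _)

theorem sn_pos {m : ℤ × ℤ} (hm : m ≠ 0) : 0 < sn m := by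
  rcases (sn_nonneg m).lt_or_eq with h | h
  · exact h
  · exfalso
    have h1 : |(m.1 : ℝ)| ≤ 0 := by rw [h]; exact le_max_left _ _
    have h2 : |(m.2 : ℝ)| ≤ 0 := by rw [h]; exact le_max_right _ _
    have h3 : (m.1 : ℝ) = 0 := abs_eq_zero.1 (le_antisymm h1 (abs_nonneg _))
    have h4 : (m.2 : ℝ) = 0 := abs_eq_zero.1 (le_antisymm h2 (abs_nonneg _))
    exact hm (Prod.ext (by exact_mod_cast h3) (by exact_mod_cast h4))

theorem summable_hex {s : ℝ} (hs : 2 < s) :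
    Summable (fun m : {m : ℤ × ℤ // m ≠ 0} => ‖hexPt m.1‖ ^ (-s)) := by
  have h1 := ((summable_sn hs).mul_left ((1 / 2 : ℝ) ^ (-s))).comp_injective
    (Subtype.val_injective (p := fun m : ℤ × ℤ => m ≠ 0))
  refine Summable.of_nonneg_of_le (fun m => by positivity) (fun m => ?_) h1
  have h2 := sn_le m.1
  have h3 := sn_pos m.2
  simp only [Function.comp]
  rw [← Real.mul_rpow (by norm_num) h3.le]
  exact Real.rpow_le_rpow_of_nonpos (by positivity) h2 (by linarith)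

theorem norm_pos {m : ℤ × ℤ} (hm : m ≠ 0) : 0 < ‖hexPt m‖ := by
  have h2 := sn_le m
  have h3 := sn_pos hm
  linarith

/-- the Mellin integral of one term -/
theorem term {w : ℝ} (hw : 0 < w) {m : ℤ × ℤ} (hm : m ≠ 0) :
    IntegrableOn (fun τ : ℝ => τ ^ (w - 1) * Real.exp (-(4 * Real.pi * τ) * (c3 * qf m))) (Ioi 0) ∧
    ∫ τ in Ioi (0 : ℝ), τ ^ (w - 1) * Real.exp (-(4 * Real.pi * τ) * (c3 * qf m)) =
      Real.Gamma w * (4 * Real.pi) ^ (-w) * ‖hexPt m‖ ^ (-(2 * w)) := by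
  have hρ := norm_pos hm
  rw [← norm_hexPt_sq]
  have hpi := Real.pi_pos
  have hr : 0 < 4 * Real.pi * ‖hexPt m‖ ^ 2 := by positivity
  have e : (fun τ : ℝ => τ ^ (w - 1) * Real.exp (-(4 * Real.pi * τ) * ‖hexPt m‖ ^ 2)) =
      fun τ : ℝ => τ ^ (w - 1) * Real.exp (-((4 * Real.pi * ‖hexPt m‖ ^ 2) * τ)) := by
    funext τ
    congr 2
    ring
  rw [e]
  constructor
  · have h := integrableOn_rpow_mul_exp_neg_mul_rpow (s := w - 1) (p := 1)
      (b := 4 * Real.pi * ‖hexPt m‖ ^ 2) (by linarith) one_pos hr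
    refine h.congr_fun (fun u _ => ?_) measurableSet_Ioi
    simp only [Real.rpow_one]
    congr 2
    ring
  · rw [Real.integral_rpow_mul_exp_neg_mul_Ioi (a := w) hw hr, one_div, Real.inv_rpow hr.le,
      ← Real.rpow_neg hr.le, Real.mul_rpow (by positivity) (by positivity),
      ← Real.rpow_natCast ‖hexPt m‖ 2, ← Real.rpow_mul hρ.le]
    have : ((2 : ℕ) : ℝ) * -w = -(2 * w) := by push_cast; ring
    rw [this]
    ring

theorem full {w : ℝ} (hw : 1 < w) :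
    IntegrableOn (fun τ : ℝ => τ ^ (w - 1) * En (4 * Real.pi * τ)) (Ioi 0) ∧
    ∫ τ in Ioi (0 : ℝ), τ ^ (w - 1) * En (4 * Real.pi * τ) =
      Real.Gamma w * (4 * Real.pi) ^ (-w) * Zt (2 * w) := by
  have hw0 : 0 < w := by linarith
  have hpi := Real.pi_pos
  obtain ⟨Fm, hF⟩ : ∃ Fm : {m : ℤ × ℤ // m ≠ 0} → ℝ → ℝ, Fm = fun m τ =>
    τ ^ (w - 1) * Real.exp (-(4 * Real.pi * τ) * (c3 * qf m.1)) := ⟨_, rfl⟩
  have hnn : ∀ m, ∀ u ∈ Ioi (0 : ℝ), 0 ≤ Fm m u := by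
    intro m u hu
    have : (0 : ℝ) < u := hu
    rw [hF]
    positivity
  have hint : ∀ m, Integrable (Fm m) (volume.restrict (Ioi 0)) := fun m => by
    rw [hF]
    exact (term hw0 m.2).1
  have hval : ∀ m, ∫ u in Ioi (0 : ℝ), Fm m u =
      Real.Gamma w * (4 * Real.pi) ^ (-w) * ‖hexPt m.1‖ ^ (-(2 * w)) := fun m => by
    rw [hF]
    exact (term hw0 m.2).2
  have hnorm : ∀ m, ∫ u in Ioi (0 : ℝ), ‖Fm m u‖ = ∫ u in Ioi (0 : ℝ), Fm m u := by
    intro m
    apply setIntegral_congr_fun measurableSet_Ioi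
    intro u hu
    exact Real.norm_of_nonneg (hnn m u hu)
  have hZ := summable_hex (s := 2 * w) (by linarith)
  have hsum : Summable fun m => ∫ u in Ioi (0 : ℝ), ‖Fm m u‖ := by
    refine (hZ.mul_left (Real.Gamma w * (4 * Real.pi) ^ (-w))).congr fun m => ?_
    rw [hnorm m, hval m]
  have hhas := hasSum_integral_of_summable_integral_norm hint hsum
  have hTh : ∀ u : ℝ, ∑' m, Fm m u = u ^ (w - 1) * En (4 * Real.pi * u) := by
    intro u
    rw [hF, En_def', ← tsum_mul_left]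
  simp only [hTh] at hhas
  have heq : ∫ τ in Ioi (0 : ℝ), τ ^ (w - 1) * En (4 * Real.pi * τ) =
      Real.Gamma w * (4 * Real.pi) ^ (-w) * Zt (2 * w) := by
    rw [← hhas.tsum_eq]
    unfold Zt
    rw [← tsum_mul_left]
    exact tsum_congr hval
  refine ⟨?_, heq⟩
  by_contra hcon
  have h0 := integral_undef hcon
  rw [heq] at h0
  have hpos : 0 < Zt (2 * w) := by
    unfold Zt
    exact hZ.tsum_pos (fun m => by positivity) ⟨(1, 0), by simp⟩
      (Real.rpow_pos_of_pos (norm_pos (by simp)) _)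
  have h1 := Real.Gamma_pos_of_pos hw0
  have h2 : 0 < (4 * Real.pi) ^ (-w) := by positivity
  have h3 : 0 < Real.Gamma w * (4 * Real.pi) ^ (-w) * Zt (2 * w) := by positivity
  linarith

theorem pole {w : ℝ} (hw : 1 < w) :
    IntegrableOn (fun τ : ℝ => τ ^ (w - 1) * (if τ ≤ 1 then 1 / (4 * τ) else 0)) (Ioi 0) ∧
    ∫ τ in Ioi (0 : ℝ), τ ^ (w - 1) * (if τ ≤ 1 then 1 / (4 * τ) else 0) = 1 / (4 * (w - 1)) := by
  have e : ∀ u ∈ Ioi (0 : ℝ), (Ioc (0 : ℝ) 1).indicator (fun u => 1 / 4 * u ^ (w - 2)) u =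
      u ^ (w - 1) * (if u ≤ 1 then 1 / (4 * u) else 0) := by
    intro u hu
    have hu0 : 0 < u := hu
    by_cases h : u ≤ 1
    · rw [indicator_of_mem (show u ∈ Ioc (0 : ℝ) 1 from ⟨hu0, h⟩), if_pos h]
      have : w - 2 = (w - 1) - 1 := by ring
      rw [this, Real.rpow_sub_one hu0.ne']
      field_simp
    · rw [indicator_of_notMem (fun h' => h h'.2), if_neg h, mul_zero]
  have h1 : IntervalIntegrable (fun u : ℝ => u ^ (w - 2)) volume 0 1 :=
    intervalIntegral.intervalIntegrable_rpow' (by linarith)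
  have h2 : IntegrableOn (fun u : ℝ => u ^ (w - 2)) (Ioc 0 1) :=
    (intervalIntegrable_iff_integrableOn_Ioc_of_le zero_le_one).1 h1
  have h3 : IntegrableOn (fun u : ℝ => 1 / 4 * u ^ (w - 2)) (Ioc 0 1) := h2.const_mul _
  constructor
  · have h4 : IntegrableOn ((Ioc (0 : ℝ) 1).indicator fun u => 1 / 4 * u ^ (w - 2)) (Ioi 0) :=
      ((integrable_indicator_iff measurableSet_Ioc).2 h3).integrableOn
    exact h4.congr_fun e measurableSet_Ioi
  · rw [← setIntegral_congr_fun measurableSet_Ioi e, setIntegral_indicator measurableSet_Ioc,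
      inter_eq_self_of_subset_right (fun u hu => hu.1), integral_const_mul,
      ← intervalIntegral.integral_of_le zero_le_one, integral_rpow (Or.inl (by linarith))]
    have h4 : w - 2 + 1 = w - 1 := by ring
    have h5 : w - 1 ≠ 0 := by
      intro h
      linarith
    rw [h4, Real.one_rpow, Real.zero_rpow h5, sub_zero]
    field_simp

end MelAux

theorem t_MEL : S_MEL := by
  intro w hw
  obtain ⟨a1, a2⟩ := MelAux.full hw
  obtain ⟨b1, b2⟩ := MelAux.pole hw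
  have e : (fun τ : ℝ => τ ^ (w - 1) * Ps τ) = fun τ : ℝ =>
      τ ^ (w - 1) * En (4 * Real.pi * τ) - τ ^ (w - 1) * (if τ ≤ 1 then 1 / (4 * τ) else 0) := by
    funext τ
    unfold Ps
    ring
  rw [e]
  exact ⟨a1.sub b1, by rw [integral_sub a1 b1, a2, b2]⟩

end Pool.Agent.J4.H95.R2
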