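import Pool.Agent.J4.H95.R2.Defs
import Pool.Agent.TH478.CE.Hex

/-!
Project R2 (helper95), piece PSI (helper81).
-/

set_option autoImplicit false

open MeasureTheory Set Filter Topology

namespace Pool.Agent.J4.H95.R2

open Pool.Agent.TH478.CE

namespace PSIAux

theorem mul_exp_le {x a : ℝ} (ha : 0 < a) : x * Real.exp (-(a * x)) ≤ 1 / a := by
  have h1 : a * x + 1 ≤ Real.exp (a * x) := Real.add_one_le_exp _
  rw [Real.exp_neg, ← div_eq_mul_inv, div_le_div_iff₀ (Real.exp_pos _) ha]
  linarith

/-- near zero -/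
theorem near {t : ℝ} (ht : 0 < t) (ht4 : t ≤ 1 / 4) :
    |En (4 * Real.pi * t) - 1 / (4 * t)| ≤ 1 + Real.exp c3 * En 1 / (c3 * Real.pi) := by
  have hpi := Real.pi_pos
  have hpi3 := Real.pi_gt_three
  have hc := c3_pos
  set K : ℝ := Real.exp c3 * En 1 with hK
  have hK0 : 0 < K := mul_pos (Real.exp_pos _) (En_pos one_pos)
  have hK1 : 0 < K / (c3 * Real.pi) := by positivity
  set β := 4 * Real.pi * t with hβ
  have hβ0 : 0 < β := by positivity
  have hβπ : β ≤ Real.pi := by nlinarith
  have h1 := En_dual hβ0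
  set γ := Real.pi ^ 2 / β with hγ
  have hγ1 : 1 ≤ γ := by
    rw [hγ, le_div_iff₀ hβ0]
    nlinarith
  have h2 := En_upper hγ1
  have h3 : 1 / (4 * t) = Real.pi / β := by
    rw [hβ]
    field_simp
  have h4 : En β = Real.pi / β * (En γ + 1) - 1 := by
    have h5 : Real.pi / β * (En γ + 1) = En β + 1 := by
      rw [h1]
      field_simp
    linarith
  have h6 : En β - 1 / (4 * t) = Real.pi / β * En γ - 1 := by
    rw [h3, h4]
    ring
  have h7 : 0 ≤ Real.pi / β * En γ := mul_nonneg (by positivity) (En_pos (by linarith)).le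
  have h8 : Real.pi / β * En γ ≤ K / (c3 * Real.pi) := by
    have h9 : γ = Real.pi * (Real.pi / β) := by rw [hγ]; ring
    have h10 := mul_exp_le (x := Real.pi / β) (a := c3 * Real.pi) (by positivity)
    calc Real.pi / β * En γ ≤ Real.pi / β * (K * Real.exp (-γ * c3)) :=
          mul_le_mul_of_nonneg_left h2 (by positivity)
      _ = K * (Real.pi / β * Real.exp (-(c3 * Real.pi * (Real.pi / β)))) := by
          rw [h9]
          ring_nf
      _ ≤ K * (1 / (c3 * Real.pi)) := mul_le_mul_of_nonneg_left h10 hK0.le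
      _ = K / (c3 * Real.pi) := by ring
  rw [h6, abs_le]
  constructor
  · linarith
  · linarith

theorem mid {t : ℝ} (ht : 1 / 4 ≤ t) :
    |En (4 * Real.pi * t) - 1 / (4 * t)| ≤ 1 + Real.exp c3 * En 1 := by
  have hpi3 := Real.pi_gt_three
  have hc := c3_pos
  have ht0 : 0 < t := by linarith
  have hK0 : 0 < Real.exp c3 * En 1 := mul_pos (Real.exp_pos _) (En_pos one_pos)
  have hβ1 : 1 ≤ 4 * Real.pi * t := by nlinarith
  have h2 := En_upper hβ1
  have h3 := (En_pos (show 0 < 4 * Real.pi * t by linarith)).le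
  have h4 : Real.exp (-(4 * Real.pi * t) * c3) ≤ 1 := Real.exp_le_one_iff.2 (by nlinarith)
  have h5 : 1 / (4 * t) ≤ 1 := by
    rw [div_le_one (by linarith)]
    linarith
  have h6 : 0 ≤ 1 / (4 * t) := by positivity
  have h7 : Real.exp c3 * En 1 * Real.exp (-(4 * Real.pi * t) * c3) ≤ Real.exp c3 * En 1 :=
    mul_le_of_le_one_right hK0.le h4
  rw [abs_le]
  constructor <;> linarith

theorem far {t : ℝ} (ht : 1 < t) :
    |t * En (4 * Real.pi * t)| ≤ Real.exp c3 * En 1 * Real.exp (-1 * t) := by
  have hpi3 := Real.pi_gt_three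
  have hc := one_lt_c3
  have ht0 : 0 < t := by linarith
  have hK0 : 0 < Real.exp c3 * En 1 := mul_pos (Real.exp_pos _) (En_pos one_pos)
  have hβ1 : 1 ≤ 4 * Real.pi * t := by nlinarith
  have h2 := En_upper hβ1
  have h3 := (En_pos (show 0 < 4 * Real.pi * t by linarith)).le
  rw [abs_of_nonneg (mul_nonneg ht0.le h3)]
  have h4 : t ≤ Real.exp t := by linarith [Real.add_one_le_exp t]
  calc t * En (4 * Real.pi * t)
      ≤ Real.exp t * (Real.exp c3 * En 1 * Real.exp (-(4 * Real.pi * t) * c3)) :=
        mul_le_mul h4 h2 h3 (Real.exp_pos _).le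
    _ = Real.exp c3 * En 1 * (Real.exp t * Real.exp (-(4 * Real.pi * t) * c3)) := by ring
    _ = Real.exp c3 * En 1 * Real.exp (t + -(4 * Real.pi * t) * c3) := by rw [Real.exp_add]
    _ ≤ Real.exp c3 * En 1 * Real.exp (-1 * t) := by
        refine mul_le_mul_of_nonneg_left (Real.exp_le_exp.2 ?_) hK0.le
        have h5 : t ≤ Real.pi * t := by nlinarith
        have h6 : Real.pi * t ≤ Real.pi * t * c3 := le_mul_of_one_le_right (by positivity) hc.le
        nlinarith

end PSIAux

open PSIAux

theorem t_PSI : S_PSI := by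
  have hpi := Real.pi_pos
  have hK0 : 0 < Real.exp c3 * En 1 := mul_pos (Real.exp_pos _) (En_pos one_pos)
  have hcp := c3_pos
  unfold S_PSI
  rw [← Ioc_union_Ioi_eq_Ioi (zero_le_one' ℝ)]
  refine IntegrableOn.union ?_ ?_
  · have h1 : IntegrableOn (fun τ : ℝ => En (4 * Real.pi * τ) - 1 / (4 * τ)) (Ioc 0 1) := by
      have hc : ContinuousOn (fun τ : ℝ => En (4 * Real.pi * τ) - 1 / (4 * τ)) (Ioc 0 1) := by
        refine ContinuousOn.sub ?_ ?_
        · refine En_continuousOn.comp (by fun_prop) fun t ht => ?_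
          have : (0 : ℝ) < t := ht.1
          exact mem_Ioi.2 (by positivity)
        · refine continuousOn_const.div (by fun_prop) fun t ht => ?_
          have : (0 : ℝ) < t := ht.1
          positivity
      refine IntegrableOn.of_bound (by simp) (hc.aestronglyMeasurable measurableSet_Ioc)
        (1 + Real.exp c3 * En 1 + Real.exp c3 * En 1 / (c3 * Real.pi)) ?_
      rw [ae_restrict_iff' measurableSet_Ioc]
      refine Eventually.of_forall fun t ht => ?_
      rw [Real.norm_eq_abs]
      have hK1 : 0 < Real.exp c3 * En 1 / (c3 * Real.pi) := by positivity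
      rcases le_total t (1 / 4) with h | h
      · linarith [near ht.1 h]
      · linarith [mid h]
    refine h1.congr_fun (fun τ hτ => ?_) measurableSet_Ioc
    show En (4 * Real.pi * τ) - 1 / (4 * τ) = max 1 τ * Ps τ
    unfold Ps
    rw [max_eq_left hτ.2, if_pos hτ.2, one_mul]
  · have h1 : IntegrableOn (fun τ : ℝ => τ * En (4 * Real.pi * τ)) (Ioi 1) := by
      have hc : ContinuousOn (fun τ : ℝ => τ * En (4 * Real.pi * τ)) (Ioi 1) := by
        refine continuousOn_id.mul (En_continuousOn.comp (by fun_prop) fun t ht => ?_)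
        have : (1 : ℝ) < t := ht
        exact mem_Ioi.2 (by positivity)
      refine Integrable.mono' ((exp_neg_integrableOn_Ioi 1 one_pos).const_mul (Real.exp c3 * En 1))
        (hc.aestronglyMeasurable measurableSet_Ioi) ?_
      rw [ae_restrict_iff' measurableSet_Ioi]
      refine Eventually.of_forall fun t ht => ?_
      rw [Real.norm_eq_abs]
      exact far ht
    refine h1.congr_fun (fun τ hτ => ?_) measurableSet_Ioi
    show τ * En (4 * Real.pi * τ) = max 1 τ * Ps τ
    unfold Ps
    have hτ1 : (1 : ℝ) < τ := hτ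
    rw [max_eq_right hτ1.le, if_neg (not_le.2 hτ1), sub_zero]

end Pool.Agent.J4.H95.R2
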