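import Pool.Agent.J4.H95.R2.Defs

/-! The representation of the energy. -/

set_option autoImplicit false

open MeasureTheory Set Filter Topology

namespace Pool.Agent.J4.H95.R2

open Pool.Agent.TH478.CE Pool.Agent.J4.H93.SR

namespace REPbAux

lemma one {a : ℝ} (ha : 0 < a) : IntegrableOn (fun τ : ℝ => Real.exp (-(a * τ))) (Ioi 0) ∧
    ∫ τ in Ioi (0 : ℝ), Real.exp (-(a * τ)) = 1 / a := by
  have h1 := integrableOn_exp_mul_Ioi (a := -a) (by linarith) 0
  have h2 := integral_exp_mul_Ioi (a := -a) (by linarith) 0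
  have e : (fun τ : ℝ => Real.exp (-a * τ)) = fun τ : ℝ => Real.exp (-(a * τ)) := by
    funext τ
    rw [neg_mul]
  rw [e] at h1 h2
  refine ⟨h1, h2.trans ?_⟩
  simp

end REPbAux

theorem t_REPb : S_REP := by
  intro N hN x hx
  have hNR : (0 : ℝ) < N := by exact_mod_cast hN
  have key : ∀ i j : Fin N, IntegrableOn (fun τ : ℝ => if i = j then (0 : ℝ) else
      Real.exp (-(τ * N * dist (x i) (x j) ^ 2))) (Ioi 0) ∧
      ∫ τ in Ioi (0 : ℝ), (if i = j then (0 : ℝ) else
        Real.exp (-(τ * N * dist (x i) (x j) ^ 2))) =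
        if i = j then 0 else 1 / (N * dist (x i) (x j) ^ 2) := by
    intro i j
    by_cases hij : i = j
    · simp only [if_pos hij]
      exact ⟨integrableOn_zero, by simp⟩
    · simp only [if_neg hij]
      have hd : 0 < dist (x i) (x j) := dist_pos.2 fun h => hij (hx h)
      have ha : 0 < (N : ℝ) * dist (x i) (x j) ^ 2 := by positivity
      have e : (fun τ : ℝ => Real.exp (-(τ * N * dist (x i) (x j) ^ 2))) =
          fun τ : ℝ => Real.exp (-((N * dist (x i) (x j) ^ 2) * τ)) := by
        funext τ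
        congr 1
        ring
      rw [e]
      exact REPbAux.one ha
  have hi : ∀ i : Fin N, IntegrableOn (fun τ : ℝ => ∑ j, if i = j then (0 : ℝ) else
      Real.exp (-(τ * N * dist (x i) (x j) ^ 2))) (Ioi 0) := fun i =>
    integrable_finset_sum _ fun j _ => (key i j).1
  have hGa : IntegrableOn (fun τ : ℝ => Ga (τ * N) x) (Ioi 0) := by
    unfold Ga
    exact integrable_finset_sum _ fun i _ => hi i
  refine ⟨hGa.const_mul _, ?_⟩
  rw [integral_const_mul]
  unfold Ga E2
  rw [integral_finset_sum _ fun i _ => hi i]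
  have h1 : ∀ i : Fin N, ∫ τ in Ioi (0 : ℝ), (∑ j, if i = j then (0 : ℝ) else
      Real.exp (-(τ * N * dist (x i) (x j) ^ 2))) =
      1 / N * ∑ j, if i = j then 0 else 1 / dist (x i) (x j) ^ 2 := by
    intro i
    rw [integral_finset_sum _ fun j _ => (key i j).1, Finset.mul_sum]
    refine Finset.sum_congr rfl fun j _ => ?_
    rw [(key i j).2]
    by_cases hij : i = j
    · simp [hij]
    · rw [if_neg hij, if_neg hij, one_div_mul_one_div]
  simp only [h1]
  rw [← Finset.mul_sum]
  field_simp

end Pool.Agent.J4.H95.R2
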