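import Pool.Agent.J4.H95.R2.Defs
import Pool.Agent.Helper88.SE3.P_HS_pair

/-!
# Project R2, ZET: representations by `j² + jk + k²`
-/

set_option autoImplicit false

open MeasureTheory Set Filter Topology

namespace Pool.Agent.J4.H95.R2

open Pool.Agent.TH478.CE Pool.Agent.Helper88.SE

namespace ZETAux

noncomputable def Ft (w : ℝ) (n : ℕ) : ℝ := (n : ℝ) ^ (-w)

theorem Ft_zero {w : ℝ} (hw : 1 < w) : Ft w 0 = 0 := by
  unfold Ft
  rw [Nat.cast_zero, Real.zero_rpow (by linarith)]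

theorem Ft_nonneg (w : ℝ) (n : ℕ) : 0 ≤ Ft w n := by unfold Ft; positivity

theorem Ft_mul (w : ℝ) (d m : ℕ) : Ft w (d * m) = Ft w d * Ft w m := by
  unfold Ft
  rw [Nat.cast_mul, Real.mul_rpow (Nat.cast_nonneg _) (Nat.cast_nonneg _)]

theorem Ft_summable {w : ℝ} (hw : 1 < w) : Summable (fun n : ℕ+ => Ft w (n : ℕ)) := by
  have h : Summable (fun n : ℕ => Ft w n) := by
    unfold Ft
    exact Real.summable_nat_rpow.2 (by linarith)
  exact h.comp_injective PNat.coe_injective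

theorem Z_hasSum {w : ℝ} (hw : 1 < w) : HasSum (fun n : ℕ+ => Ft w (n : ℕ)) (Z1 w) := by
  have h2 := (Ft_summable hw).hasSum
  have h3 := (Equiv.pnatEquivNat.symm.hasSum_iff).2 h2
  have h4 : ((fun n : ℕ+ => Ft w (n : ℕ)) ∘ Equiv.pnatEquivNat.symm)
      = fun n : ℕ => ((n : ℝ) + 1) ^ (-w) := by
    funext m
    simp [Ft]
  rw [h4] at h3
  have h5 : Z1 w = _ := h3.tsum_eq
  rw [h5]
  exact h2

theorem chi_summable {w : ℝ} (hw : 1 < w) :
    Summable (fun n : ℕ+ => ((chi (n : ℕ) : ℤ) : ℝ) * Ft w (n : ℕ)) := by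
  refine Summable.of_norm_bounded (Ft_summable hw) fun p => ?_
  rw [norm_mul, Real.norm_eq_abs, Real.norm_eq_abs, abs_of_nonneg (Ft_nonneg _ _)]
  calc _ ≤ 1 * Ft w (p : ℕ) := mul_le_mul_of_nonneg_right (chi_abs _) (Ft_nonneg _ _)
    _ = _ := one_mul _

theorem L_hasSum {w : ℝ} (hw : 1 < w) :
    HasSum (fun n : ℕ+ => ((chi (n : ℕ) : ℤ) : ℝ) * Ft w (n : ℕ)) (L3 w) := by
  have h2 := (chi_summable hw).hasSum
  have h3 := (Equiv.pnatEquivNat.symm.hasSum_iff).2 h2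
  have h4 := ((Nat.divModEquiv 3).symm.hasSum_iff).2 h3
  have h5 := HasSum.prod_fiberwise h4 (g := fun k : ℕ => (3 * (k : ℝ) + 1) ^ (-w) - (3 * (k : ℝ) + 2) ^ (-w)) ?_
  · have h6 : L3 w = _ := h5.tsum_eq
    rw [h6]
    exact h2
  · intro k
    have h6 := hasSum_fintype (fun r : Fin 3 => (((fun d : ℕ+ => ((chi (d : ℕ) : ℤ) : ℝ) *
      Ft w (d : ℕ)) ∘ Equiv.pnatEquivNat.symm) ∘ (Nat.divModEquiv 3).symm) (k, r))
    convert h6 using 1
    rw [Fin.sum_univ_three]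
    have c1 : chi (k * 3 + 0 + 1) = 1 := by unfold chi; rw [if_pos (by omega)]
    have c2 : chi (k * 3 + 1 + 1) = -1 := by
      unfold chi; rw [if_neg (by omega), if_pos (by omega)]
    have c3 : chi (k * 3 + 2 + 1) = 0 := by
      unfold chi; rw [if_neg (by omega), if_neg (by omega)]
    show _ = ((chi (k * 3 + 0 + 1) : ℤ) : ℝ) * Ft w (k * 3 + 0 + 1 : ℕ)
      + ((chi (k * 3 + 1 + 1) : ℤ) : ℝ) * Ft w (k * 3 + 1 + 1 : ℕ)
      + ((chi (k * 3 + 2 + 1) : ℤ) : ℝ) * Ft w (k * 3 + 2 + 1 : ℕ)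
    rw [c1, c2, c3]
    unfold Ft
    have d1 : ((k * 3 + 0 + 1 : ℕ) : ℝ) = 3 * k + 1 := by push_cast; ring
    have d2 : ((k * 3 + 1 + 1 : ℕ) : ℝ) = 3 * k + 2 := by push_cast; ring
    rw [d1, d2]
    push_cast
    ring

theorem dbl {w : ℝ} (hw : 1 < w) :
    HasSum (fun p : ℕ+ × ℕ+ => ((chi (p.1 : ℕ) : ℤ) : ℝ) * Ft w ((p.1 : ℕ) * (p.2 : ℕ)))
      (L3 w * Z1 w) := by
  have h1 : Summable (fun p : ℕ+ × ℕ+ => (((chi (p.1 : ℕ) : ℤ) : ℝ) * Ft w (p.1 : ℕ)) * Ft w (p.2 : ℕ)) := by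
    refine Summable.of_norm_bounded (Summable.mul_of_nonneg (Ft_summable hw) (Ft_summable hw)
      (fun n => Ft_nonneg _ _) (fun n => Ft_nonneg _ _)) fun p => ?_
    rw [norm_mul, norm_mul, Real.norm_eq_abs, Real.norm_eq_abs, Real.norm_eq_abs,
      abs_of_nonneg (Ft_nonneg _ _), abs_of_nonneg (Ft_nonneg _ _)]
    refine mul_le_mul_of_nonneg_right ?_ (Ft_nonneg _ _)
    calc _ ≤ 1 * Ft w (p.1 : ℕ) := mul_le_mul_of_nonneg_right (chi_abs _) (Ft_nonneg _ _)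
      _ = _ := one_mul _
  have h2 := (L_hasSum hw).mul (Z_hasSum hw) h1
  have h3 : (fun p : ℕ+ × ℕ+ => ((chi (p.1 : ℕ) : ℤ) : ℝ) * Ft w ((p.1 : ℕ) * (p.2 : ℕ))) =
      fun p : ℕ+ × ℕ+ => (((chi (p.1 : ℕ) : ℤ) : ℝ) * Ft w (p.1 : ℕ)) * Ft w (p.2 : ℕ) := by
    funext p
    rw [Ft_mul, mul_assoc]
  rw [h3]
  exact h2

theorem conv {w : ℝ} (hw : 1 < w) :
    HasSum (fun n : ℕ+ => ((∑ d ∈ (n : ℕ).divisors, chi d : ℤ) : ℝ) * Ft w (n : ℕ)) (L3 w * Z1 w) := by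
  have h2 := (sigmaAntidiagonalEquivProd.hasSum_iff).2 (dbl hw)
  refine HasSum.sigma h2 ?_
  intro n
  have h4 := hasSum_fintype (fun c : Nat.divisorsAntidiagonal (n : ℕ) =>
    ((fun p : ℕ+ × ℕ+ => ((chi (p.1 : ℕ) : ℤ) : ℝ) * Ft w ((p.1 : ℕ) * (p.2 : ℕ))) ∘
      sigmaAntidiagonalEquivProd) ⟨n, c⟩)
  have h5 : ∑ c : Nat.divisorsAntidiagonal (n : ℕ),
    ((fun p : ℕ+ × ℕ+ => ((chi (p.1 : ℕ) : ℤ) : ℝ) * Ft w ((p.1 : ℕ) * (p.2 : ℕ))) ∘
      sigmaAntidiagonalEquivProd) ⟨n, c⟩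
      = ((∑ d ∈ (n : ℕ).divisors, chi d : ℤ) : ℝ) * Ft w (n : ℕ) := by
    have h6 : ∀ c : Nat.divisorsAntidiagonal (n : ℕ),
      ((fun p : ℕ+ × ℕ+ => ((chi (p.1 : ℕ) : ℤ) : ℝ) * Ft w ((p.1 : ℕ) * (p.2 : ℕ))) ∘
        sigmaAntidiagonalEquivProd) ⟨n, c⟩ = ((chi c.1.1 : ℤ) : ℝ) * Ft w (n : ℕ) := by
      intro c
      have hc := (Nat.mem_divisorsAntidiagonal.1 c.2).1
      show ((chi c.1.1 : ℤ) : ℝ) * Ft w (c.1.1 * c.1.2) = _
      rw [hc]
    rw [Finset.sum_congr rfl (fun c _ => h6 c), ← Finset.sum_mul]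
    congr 1
    rw [Finset.univ_eq_attach, Finset.sum_attach _ (fun x : ℕ × ℕ => ((chi x.1 : ℤ) : ℝ)),
      Nat.sum_divisorsAntidiagonal (fun d _ => ((chi d : ℤ) : ℝ))]
    push_cast
    rfl
  rw [h5] at h4
  exact h4

theorem convN {w : ℝ} (hw : 1 < w) :
    HasSum (fun n : ℕ => 6 * (((∑ d ∈ n.divisors, chi d : ℤ) : ℝ) * Ft w n)) (6 * (L3 w * Z1 w)) := by
  refine HasSum.mul_left 6 ?_
  have h8 : HasSum ((fun n : ℕ => (((∑ d ∈ n.divisors, chi d : ℤ) : ℝ) * Ft w n)) ∘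
      (fun n : ℕ+ => (n : ℕ))) (L3 w * Z1 w) := conv hw
  rw [PNat.coe_injective.hasSum_iff] at h8
  · exact h8
  · intro x hx
    have : x = 0 := by
      by_contra hne
      exact hx ⟨⟨x, Nat.pos_of_ne_zero hne⟩, rfl⟩
    subst this
    rw [Ft_zero hw, mul_zero]

/-- the term -/
noncomputable def tt (w : ℝ) (z : ℤ × ℤ) : ℝ := Ft w (hq z).toNat

theorem tt_fiber {w : ℝ} (hw : 1 < w) (n : ℕ) :
    HasSum (fun c : {z : ℤ × ℤ // (hq z).toNat = n} => tt w c.1)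
      (6 * (((∑ d ∈ n.divisors, chi d : ℤ) : ℝ) * Ft w n)) := by
  have hfun : (fun c : {z : ℤ × ℤ // (hq z).toNat = n} => tt w c.1) = fun _ => Ft w n := by
    funext c
    unfold tt
    rw [c.2]
  rw [hfun]
  rcases Nat.eq_zero_or_pos n with h0 | h0
  · subst h0
    rw [Ft_zero hw, mul_zero, mul_zero]
    exact hasSum_zero
  · obtain ⟨hfin, hcard⟩ := rep_form n h0
    have hiff : ∀ z : ℤ × ℤ, (hq z).toNat = n ↔ hq z = n := by
      intro z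
      have := hq_nonneg z
      omega
    let e : {z : ℤ × ℤ // (hq z).toNat = n} ≃ {z : ℤ × ℤ // hq z = n} :=
      Equiv.subtypeEquivRight hiff
    have : Finite {z : ℤ × ℤ // (hq z).toNat = n} := Finite.of_equiv _ e.symm
    have := Fintype.ofFinite {z : ℤ × ℤ // (hq z).toNat = n}
    have h3 := hasSum_fintype (fun _ : {z : ℤ × ℤ // (hq z).toNat = n} => Ft w n)
    have h4 : ∑ _c : {z : ℤ × ℤ // (hq z).toNat = n}, Ft w n
        = 6 * (((∑ d ∈ n.divisors, chi d : ℤ) : ℝ) * Ft w n) := by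
      rw [Finset.sum_const, Finset.card_univ, nsmul_eq_mul, ← Nat.card_eq_fintype_card,
        Nat.card_congr e, ← mul_assoc]
      congr 1
      exact_mod_cast hcard
    rw [h4] at h3
    exact h3

theorem tt_hasSum {w : ℝ} (hw : 1 < w) : HasSum (tt w) (6 * (L3 w * Z1 w)) := by
  let e := Equiv.sigmaFiberEquiv (fun z : ℤ × ℤ => (hq z).toNat)
  have hs : Summable (tt w ∘ e) := by
    have hnn : ∀ x, 0 ≤ (tt w ∘ e) x := fun x => Ft_nonneg w _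
    rw [summable_sigma_of_nonneg hnn]
    refine ⟨fun n => (tt_fiber hw n).summable, ?_⟩
    have : (fun n : ℕ => ∑' y : {z : ℤ × ℤ // (hq z).toNat = n}, (tt w ∘ e) ⟨n, y⟩) =
        fun n : ℕ => 6 * (((∑ d ∈ n.divisors, chi d : ℤ) : ℝ) * Ft w n) := by
      funext n
      exact (tt_fiber hw n).tsum_eq
    rw [this]
    exact (convN hw).summable
  have h1 := HasSum.sigma hs.hasSum (fun n => tt_fiber hw n)
  have h2 := h1.unique (convN hw)
  have h3 := hs.hasSum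
  rw [h2] at h3
  exact (e.hasSum_iff).1 h3

theorem norm_hexPt (z : ℤ × ℤ) : ‖hexPt z‖ ^ 2 = c3 * qf z := by
  rw [← len_sq, mul_pow, Real.sq_sqrt (by have := qf_nonneg z; unfold qf at this; exact this),
    EuclideanSpace.norm_sq_eq]
  unfold hexPt
  simp only [Fin.sum_univ_two, Real.norm_eq_abs, sq_abs]
  have h3 : √3 ^ 2 = 3 := Real.sq_sqrt (by norm_num)
  simp
  ring_nf
  rw [h3]
  ring

theorem term_eq {w : ℝ} (z : ℤ × ℤ) : ‖hexPt z‖ ^ (-(2 * w)) = (√3 / 2) ^ w * tt w z := by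
  have h1 : ‖hexPt z‖ ^ (-(2 * w)) = (‖hexPt z‖ ^ 2) ^ (-w) := by
    rw [← Real.rpow_natCast, ← Real.rpow_mul (norm_nonneg _)]
    congr 1
    push_cast
    ring
  have h2 : qf z = (((hq z).toNat : ℕ) : ℝ) := by
    have h3 : (((hq z).toNat : ℕ) : ℝ) = ((hq z : ℤ) : ℝ) := by
      have := Int.toNat_of_nonneg (hq_nonneg z)
      exact_mod_cast this
    rw [h3]
    unfold qf hq
    push_cast
    ring
  rw [h1, norm_hexPt, Real.mul_rpow c3_pos.le (qf_nonneg z), h2]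
  unfold tt Ft
  congr 1
  unfold c3
  rw [Real.rpow_neg (by positivity), ← Real.inv_rpow (by positivity), inv_div]

end ZETAux

theorem t_ZET : S_ZET := by
  intro w hw
  have h1 := (ZETAux.tt_hasSum hw).mul_left ((√3 / 2) ^ w)
  have h2 : HasSum (fun m : {m : ℤ × ℤ // m ≠ 0} => (√3 / 2) ^ w * ZETAux.tt w m.1)
      ((√3 / 2) ^ w * (6 * (L3 w * Z1 w))) := by
    have h3 := (hasSum_subtype_iff_of_support_subset (f := fun z : ℤ × ℤ => (√3 / 2) ^ w * ZETAux.tt w z)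
      (s := {m : ℤ × ℤ | m ≠ 0}) ?_).2 h1
    · exact h3
    · intro z hz
      simp only [Function.mem_support] at hz
      intro h0
      apply hz
      rw [h0]
      unfold ZETAux.tt
      have : (hq 0).toNat = 0 := by unfold hq; simp
      rw [this, ZETAux.Ft_zero hw, mul_zero]
  unfold Zt
  simp_rw [ZETAux.term_eq]
  rw [h2.tsum_eq]
  ring

end Pool.Agent.J4.H95.R2
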