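import Pool.Agent.J4.H95.R2.Main
import Pool.Agent.J4.H95.R2.CONT
import Pool.Agent.J4.H95.R2.DMb
import Pool.Agent.J4.H95.R2.FIN
import Pool.Agent.J4.H95.R2.LAU
import Pool.Agent.J4.H95.R2.MEANb
import Pool.Agent.J4.H95.R2.MEL
import Pool.Agent.J4.H95.R2.PSI
import Pool.Agent.J4.H95.R2.REPb
import Pool.Agent.J4.H95.R2.ZET
import Pool.Agent.J4.H93.SR.Low

/-!
# Project R2: the minimal Riesz 2-energy on the two-sphere
-/

set_option autoImplicit false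

open MeasureTheory Set Filter Topology

namespace Pool.Agent.J4.H95.R2

open Pool.Agent.TH478.CE Pool.Agent.J4.H93.SR Pool.Agent.J4.H93.RZ

theorem t_LOW : S_LOW := by
  intro τ hτ ε hε
  obtain ⟨N0, -, h1⟩ := Phi_low hτ hε
  filter_upwards [eventually_ge_atTop N0] with N hN x
  have h2 := h1 N hN x
  have h3 := En_sub_LP_le (4 * Real.pi * τ) (by positivity)
  linarith

theorem int_of_PSI (h : S_PSI) : IntegrableOn Ps (Ioi 0) := by
  have hm : Measurable (fun τ : ℝ => (max 1 τ)⁻¹) := by fun_prop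
  have h1 : IntegrableOn (fun τ : ℝ => (max 1 τ)⁻¹ * (max 1 τ * Ps τ)) (Ioi 0) := by
    refine Integrable.bdd_mul (c := 1) h hm.aestronglyMeasurable ?_
    refine Eventually.of_forall fun τ => ?_
    have h2 : (1 : ℝ) ≤ max 1 τ := le_max_left _ _
    rw [Real.norm_eq_abs, abs_of_nonneg (by positivity)]
    exact inv_le_one_of_one_le₀ h2
  refine h1.congr (Eventually.of_forall fun τ => ?_)
  have h2 : (max 1 τ : ℝ) ≠ 0 := (lt_of_lt_of_le one_pos (le_max_left _ _)).ne'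
  simp only
  rw [← mul_assoc, inv_mul_cancel₀ h2, one_mul]

theorem fin :
    ∃ c₁ c₂ : ℂ,
      Tendsto (fun s : ℂ => deriv (fun z : ℂ =>
        HurwitzZeta.hurwitzZeta ((1/3 : ℝ) : UnitAddCircle) z - 1 / (z - 1)) s)
        (𝓝[≠] (1 : ℂ)) (𝓝 (-c₁)) ∧
      Tendsto (fun s : ℂ => deriv (fun z : ℂ =>
        HurwitzZeta.hurwitzZeta ((2/3 : ℝ) : UnitAddCircle) z - 1 / (z - 1)) s)
        (𝓝[≠] (1 : ℂ)) (𝓝 (-c₂)) ∧
      ∀ᶠ N : ℕ in atTop,
        (1/4 : ℝ) * (N : ℝ) ^ 2 * Real.log (N : ℝ)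
          + ((1/4 : ℝ) * (Real.eulerMascheroniConstant
                - Real.log (2 * Real.sqrt 3 * Real.pi))
              + Real.sqrt 3 / (4 * Real.pi) * (c₂.re - c₁.re) - 10 ^ (-8 : ℤ)) * (N : ℝ) ^ 2 ≤
        sInf (Main.ES N) :=
  Main.main t_REPb t_MEAN' (int_of_PSI t_PSI) t_DMb t_LOW t_MEL (t_CONT t_PSI) t_ZET t_LAU t_FIN

end Pool.Agent.J4.H95.R2
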