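import Pool.Agent.J4.H95.R2.Defs

set_option autoImplicit false

open MeasureTheory Set Filter Topology

namespace Pool.Agent.J4.H95.R2

namespace HURAux

/-- termwise rescaling -/
theorem term_eq (n : ℕ) (a w : ℝ) (ha : 0 < a) :
    (1 : ℂ) / ((n : ℂ) + ((a / 3 : ℝ) : ℂ)) ^ (w : ℂ) = (((3 : ℝ) ^ w * (3 * (n : ℝ) + a) ^ (-w) : ℝ) : ℂ) := by
  have h0 : (0 : ℝ) < 3 * (n : ℝ) + a := by positivity
  have h1 : (n : ℂ) + ((a / 3 : ℝ) : ℂ) = (((3 * (n : ℝ) + a) / 3 : ℝ) : ℂ) := by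
    push_cast; ring
  rw [h1, ← Complex.ofReal_cpow (by positivity), ← Complex.ofReal_one, ← Complex.ofReal_div]
  congr 1
  rw [Real.div_rpow h0.le (by norm_num), Real.rpow_neg h0.le]
  have h3 : (3 * (n : ℝ) + a) ^ w ≠ 0 := (Real.rpow_pos_of_pos h0 w).ne'
  have h4 : (3 : ℝ) ^ w ≠ 0 := (Real.rpow_pos_of_pos (by norm_num) w).ne'
  field_simp

end HURAux

theorem t_HUR : S_HUR := by
  intro w hw
  have hw' : 1 < (w : ℂ).re := by simpa using hw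
  have h1 := HurwitzZeta.hasSum_hurwitzZeta_of_one_lt_re (a := 1 / 3) (by constructor <;> norm_num) hw'
  have h2 := HurwitzZeta.hasSum_hurwitzZeta_of_one_lt_re (a := 2 / 3) (by constructor <;> norm_num) hw'
  have h3 := h1.sub h2
  have h4 : (fun n : ℕ => (1 : ℂ) / ((n : ℂ) + ((1 / 3 : ℝ) : ℂ)) ^ (w : ℂ) -
      1 / ((n : ℂ) + ((2 / 3 : ℝ) : ℂ)) ^ (w : ℂ)) = fun n : ℕ =>
      (((3 : ℝ) ^ w * ((3 * (n : ℝ) + 1) ^ (-w) - (3 * (n : ℝ) + 2) ^ (-w)) : ℝ) : ℂ) := by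
    funext n
    rw [HURAux.term_eq n 1 w one_pos, HURAux.term_eq n 2 w two_pos]
    push_cast
    ring
  rw [h4, Complex.hasSum_iff] at h3
  have h5 := h3.1
  have h6 := h3.2
  simp only [Complex.ofReal_re] at h5
  simp only [Complex.ofReal_im] at h6
  apply Complex.ext
  · rw [← h5.tsum_eq, Complex.ofReal_re, L3, ← tsum_mul_left]
  · rw [← h6.tsum_eq, Complex.ofReal_im, tsum_zero]

end Pool.Agent.J4.H95.R2
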