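import Pool.Agent.J4.H95.R2.Asm

/-!
# Project R2: the lower bound, uniformly in the configuration
-/

set_option autoImplicit false

open MeasureTheory Set Filter Topology

namespace Pool.Agent.J4.H95.R2

open Pool.Agent.TH478.CE Pool.Agent.J4.H93.SR Pool.Agent.J4.H93.RZ AsmAux

namespace Key

theorem exp_lim {τ : ℝ} (hτ : 0 < τ) :
    Tendsto (fun N : ℕ => Real.exp (-(4 * (τ * N))) / (4 * τ)) atTop (𝓝 0) := by
  have h1 : Tendsto (fun N : ℕ => 4 * (τ * (N : ℝ))) atTop atTop := by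
    have := (tendsto_natCast_atTop_atTop (R := ℝ)).const_mul_atTop hτ
    exact this.const_mul_atTop (by norm_num)
  have h2 := (Real.tendsto_exp_neg_atTop_nhds_zero.comp h1).div_const (4 * τ)
  simpa using h2

theorem N_g2 {N : ℕ} (hN : 0 < N) {τ : ℝ} (hτ : 0 < τ) :
    (N : ℝ) * g2 (τ * N) = 1 / (4 * τ) - Real.exp (-(4 * (τ * N))) / (4 * τ) := by
  have hN0 : (N : ℝ) ≠ 0 := by exact_mod_cast hN.ne'
  unfold g2
  field_simp

theorem low (hLOW : S_LOW) {τ : ℝ} (hτ : 0 < τ) {ε : ℝ} (hε : 0 < ε) :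
    ∀ᶠ N : ℕ in atTop, ∀ x : Fin N → S2,
      Ps τ - Dm (4 * Real.pi * τ) - ε ≤ F x τ := by
  filter_upwards [hLOW τ hτ (ε / 2) (by positivity), eventually_gt_atTop 0,
    (exp_lim hτ).eventually_lt_const (show (0 : ℝ) < ε / 2 by positivity)] with N h1 h2 h3 x
  have h4 := h1 x
  unfold Phi at h4
  unfold F Ps
  split_ifs with h
  · linarith
  · rw [N_g2 h2 hτ] at h4
    linarith

theorem key (hREP : S_REP) (hMEAN : S_MEAN) (hPs : IntegrableOn Ps (Ioi 0)) (hDM : S_DM)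
    (hLOW : S_LOW) {ε : ℝ} (hε : 0 < ε) :
    ∀ᶠ N : ℕ in atTop, ∀ x : Fin N → S2, Function.Injective x →
      1 / 4 * Real.log N + 1 / 4 * (Real.log 4 + Real.eulerMascheroniConstant) +
        (∫ τ in Ioi (0 : ℝ), Ps τ) - 7 / 10 * 10 ^ (-8 : ℤ) - ε ≤ E2 x / (N : ℝ) ^ 2 := by
  classical
  set ψ : ℝ → ℝ := fun τ => Ps τ - Dm (4 * Real.pi * τ) with hψ
  have hψi : IntegrableOn ψ (Ioi 0) := hPs.sub hDM.1
  have hψv : (∫ τ in Ioi (0 : ℝ), Ps τ) - 7 / 10 * 10 ^ (-8 : ℤ) ≤ ∫ τ in Ioi (0 : ℝ), ψ τ := by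
    have : ∫ τ in Ioi (0 : ℝ), ψ τ = (∫ τ in Ioi (0 : ℝ), Ps τ) -
        ∫ τ in Ioi (0 : ℝ), Dm (4 * Real.pi * τ) := integral_sub hPs hDM.1
    rw [this]
    linarith [hDM.2]
  let bad : (N : ℕ) → (Fin N → S2) → Prop := fun N x => Function.Injective x ∧
    E2 x / (N : ℝ) ^ 2 < 1 / 4 * Real.log N + 1 / 4 * (Real.log 4 +
      Real.eulerMascheroniConstant) + (∫ τ in Ioi (0 : ℝ), Ps τ) - 7 / 10 * 10 ^ (-8 : ℤ) - ε
  let φ : ℕ → ℝ → ℝ := fun n => if h : 0 < n ∧ ∃ x, bad n x then F h.2.choose else fun τ => |ψ τ|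
  have hFi : ∀ (N : ℕ), 0 < N → ∀ x : Fin N → S2, Function.Injective x →
      IntegrableOn (F x) (Ioi 0) ∧ ∫ τ in Ioi (0 : ℝ), F x τ = E2 x / (N : ℝ) ^ 2 -
        ∫ τ in Ioc (0 : ℝ) 1, (N : ℝ) * g2 (τ * N) := by
    intro N hN x hx
    obtain ⟨h1, h2⟩ := hREP N hN x hx
    obtain ⟨h3, h4⟩ := int_ite (hMEAN.1 N hN)
    constructor
    · exact h1.sub h3
    · unfold F
      rw [integral_sub h1 h3, h2, h4]
  have hφ : ∀ n, IntegrableOn (φ n) (Ioi 0) := by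
    intro n
    by_cases h : 0 < n ∧ ∃ x, bad n x
    · simp only [φ, dif_pos h]
      exact (hFi n h.1 _ h.2.choose_spec.1).1
    · simp only [φ, dif_neg h]
      exact hψi.abs
  have hh : IntegrableOn (fun τ : ℝ => if τ ≤ 1 then (1 : ℝ) else 0) (Ioi 0) :=
    (int_ite (f := fun _ => (1 : ℝ)) (by simp [integrableOn_const_iff])).1
  have hb : ∀ n, ∀ τ > 0, -(fun τ : ℝ => if τ ≤ 1 then (1 : ℝ) else 0) τ ≤ φ n τ := by
    intro n τ hτ
    by_cases h : 0 < n ∧ ∃ x, bad n x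
    · simp only [φ, dif_pos h]
      exact F_ge h.1 _ hτ
    · simp only [φ, dif_neg h]
      have h1 := abs_nonneg (ψ τ)
      split_ifs <;> linarith
  have hl : ∀ τ > 0, ∀ ε > 0, ∀ᶠ n in atTop, ψ τ - ε ≤ φ n τ := by
    intro τ hτ ε' hε'
    filter_upwards [low hLOW hτ hε'] with n hn
    by_cases h : 0 < n ∧ ∃ x, bad n x
    · simp only [φ, dif_pos h]
      exact hn _
    · simp only [φ, dif_neg h]
      linarith [le_abs_self (ψ τ)]
  filter_upwards [fatou_low hφ hh hψi hb hl (ε / 2) (by positivity), eventually_gt_atTop 0,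
    hMEAN.2.eventually_const_lt (show 1 / 4 * (Real.log 4 + Real.eulerMascheroniConstant) - ε / 2 <
      1 / 4 * (Real.log 4 + Real.eulerMascheroniConstant) by linarith)] with N h1 h2 h3 x hx
  by_contra hc
  push Not at hc
  have h : 0 < N ∧ ∃ x, bad N x := ⟨h2, x, hx, hc⟩
  simp only [φ, dif_pos h] at h1
  rw [(hFi N h.1 _ h.2.choose_spec.1).2] at h1
  have h4 := h.2.choose_spec.2
  linarith

end Key

end Pool.Agent.J4.H95.R2
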