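import Pool.Agent.J4.H95.R2.Defs
import Pool.Agent.Helper88.SE3.P_L1_val

/-!
# Project R2, piece LAU (helper43): the Stieltjes constants
-/

set_option autoImplicit false

open MeasureTheory Set Filter Topology

namespace Pool.Agent.J4.H95.R2

namespace LAUAux

/-- the analytic part of the Hurwitz zeta function at `1` -/
noncomputable def gz (a : UnitAddCircle) (s : ℂ) : ℂ :=
  (HurwitzZeta.hurwitzZeta a s - 1 / (s - 1) / Complex.Gammaℝ s) +
    dslope (fun z : ℂ => (Complex.Gammaℝ z)⁻¹) 1 s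

theorem gz_diff (a : UnitAddCircle) : Differentiable ℂ (gz a) := by
  have h1 : Differentiable ℂ fun s : ℂ =>
      HurwitzZeta.hurwitzZeta a s - 1 / (s - 1) / Complex.Gammaℝ s := by
    intro s
    by_cases hs : s = 1
    · rw [hs]
      exact HurwitzZeta.differentiableAt_hurwitzZeta_sub_one_div a
    · refine (HurwitzZeta.differentiableAt_hurwitzZeta a hs).sub ?_
      simp only [div_eq_mul_inv _ (Complex.Gammaℝ _)]
      refine DifferentiableAt.mul ?_ Complex.differentiable_Gammaℝ_inv.differentiableAt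
      exact (differentiableAt_const _).div ((differentiableAt_id).sub_const 1)
        (sub_ne_zero.2 hs)
  have h2 : Differentiable ℂ (dslope (fun z : ℂ => (Complex.Gammaℝ z)⁻¹) 1) := by
    rw [← differentiableOn_univ, Complex.differentiableOn_dslope univ_mem, differentiableOn_univ]
    exact Complex.differentiable_Gammaℝ_inv
  exact h1.add h2

theorem gz_eq (a : UnitAddCircle) {s : ℂ} (hs : s ≠ 1) :
    HurwitzZeta.hurwitzZeta a s - 1 / (s - 1) = gz a s := by
  unfold gz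
  rw [dslope_of_ne _ hs, slope_def_field, Complex.Gammaℝ_one]
  have : s - 1 ≠ 0 := sub_ne_zero.2 hs
  field_simp
  ring

theorem deriv_lim (a : UnitAddCircle) :
    Tendsto (fun s : ℂ => deriv (fun z : ℂ => HurwitzZeta.hurwitzZeta a z - 1 / (z - 1)) s)
      (𝓝[≠] (1 : ℂ)) (𝓝 (deriv (gz a) 1)) := by
  have h1 : ContinuousAt (deriv (gz a)) 1 :=
    ((gz_diff a).analyticAt 1).deriv.continuousAt
  have h2 : Tendsto (deriv (gz a)) (𝓝[≠] (1 : ℂ)) (𝓝 (deriv (gz a) 1)) :=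
    h1.tendsto.mono_left nhdsWithin_le_nhds
  refine h2.congr' ?_
  filter_upwards [self_mem_nhdsWithin] with s hs
  refine (Filter.EventuallyEq.deriv_eq ?_).symm
  filter_upwards [isOpen_ne.mem_nhds (show s ≠ 1 from hs)] with z hz
  exact gz_eq a hz

theorem term_le {w : ℝ} (h1 : 1 ≤ w) (h2 : w ≤ 2) (k : ℕ) :
    ‖(3 * (k : ℝ) + 1) ^ (-w) - (3 * (k : ℝ) + 2) ^ (-w)‖ ≤ 2 * (1 / ((k : ℝ) + 1) ^ 2) := by
  have hk : (0 : ℝ) ≤ k := Nat.cast_nonneg k
  set a : ℝ := 3 * (k : ℝ) + 1 with ha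
  have hb : 3 * (k : ℝ) + 2 = a + 1 := by rw [ha]; ring
  rw [hb]
  have ha1 : 1 ≤ a := by rw [ha]; linarith
  have ha0 : 0 < a := by linarith
  have e1 : (a + 1) ^ (-w) ≤ a ^ (-w) :=
    Real.rpow_le_rpow_of_nonpos ha0 (by linarith) (by linarith)
  rw [Real.norm_eq_abs, abs_of_nonneg (by linarith)]
  have e2 : (a + 1) ^ (-w) = a ^ (-w) * (a / (a + 1)) ^ w := by
    rw [Real.div_rpow ha0.le (by linarith), Real.rpow_neg (by linarith), Real.rpow_neg ha0.le]
    have : a ^ w ≠ 0 := (Real.rpow_pos_of_pos ha0 w).ne'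
    have : (a + 1) ^ w ≠ 0 := (Real.rpow_pos_of_pos (by linarith) w).ne'
    field_simp
  have e3 : (a / (a + 1)) ^ (2 : ℝ) ≤ (a / (a + 1)) ^ w := by
    refine Real.rpow_le_rpow_of_exponent_ge (by positivity) ?_ h2
    rw [div_le_one (by linarith)]
    linarith
  have e4 : a ^ (-w) ≤ a ^ (-1 : ℝ) := Real.rpow_le_rpow_of_exponent_le ha1 (by linarith)
  have e5 : (a / (a + 1)) ^ (2 : ℝ) = (a / (a + 1)) ^ 2 := by
    rw [← Real.rpow_natCast]
    norm_num
  have e6 : (a / (a + 1)) ^ 2 ≤ 1 := by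
    have : a / (a + 1) ≤ 1 := by
      rw [div_le_one (by linarith)]
      linarith
    exact pow_le_one₀ (by positivity) this
  have e7 : 0 ≤ a ^ (-w) := (Real.rpow_pos_of_pos ha0 _).le
  have e8 : a ^ (-w) - (a + 1) ^ (-w) ≤ a ^ (-1 : ℝ) * (1 - (a / (a + 1)) ^ 2) := by
    rw [e2]
    rw [e5] at e3
    have e9 : a ^ (-w) - a ^ (-w) * (a / (a + 1)) ^ w = a ^ (-w) * (1 - (a / (a + 1)) ^ w) := by
      ring
    rw [e9]
    have e10 : a ^ (-w) * (1 - (a / (a + 1)) ^ w) ≤ a ^ (-w) * (1 - (a / (a + 1)) ^ 2) :=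
      mul_le_mul_of_nonneg_left (by linarith) e7
    exact e10.trans (mul_le_mul_of_nonneg_right e4 (by linarith))
  refine e8.trans ?_
  rw [Real.rpow_neg_one]
  have e11 : a⁻¹ * (1 - (a / (a + 1)) ^ 2) = (2 * a + 1) / (a * (a + 1) ^ 2) := by
    field_simp
    ring
  rw [e11]
  have e12 : (k : ℝ) + 1 ≤ a := by rw [ha]; linarith
  have e13 : (2 * a + 1) / (a * (a + 1) ^ 2) ≤ 2 * (1 / a ^ 2) := by
    rw [div_le_iff₀ (by positivity)]
    have : 2 * (1 / a ^ 2) * (a * (a + 1) ^ 2) = 2 * (a + 1) ^ 2 / a := by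
      field_simp
    rw [this, le_div_iff₀ ha0]
    nlinarith
  refine e13.trans ?_
  refine mul_le_mul_of_nonneg_left ?_ (by norm_num)
  refine one_div_le_one_div_of_le (by positivity) ?_
  exact pow_le_pow_left₀ (by positivity) e12 2

theorem L3_lim : Tendsto L3 (𝓝[>] 1) (𝓝 (Real.pi / (3 * Real.sqrt 3))) := by
  have h0 : ∑' k : ℕ, ((3 * (k : ℝ) + 1) ^ (-(1 : ℝ)) - (3 * (k : ℝ) + 2) ^ (-(1 : ℝ))) =
      Real.pi / (3 * Real.sqrt 3) := by
    rw [← Pool.Agent.Helper88.SE.L1_val.tsum_eq]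
    refine tsum_congr fun k => ?_
    rw [Real.rpow_neg_one, Real.rpow_neg_one, one_div, one_div]
  rw [← h0]
  unfold L3
  refine tendsto_tsum_of_dominated_convergence (bound := fun k : ℕ => 2 * (1 / ((k : ℝ) + 1) ^ 2))
    ?_ ?_ ?_
  · have := (summable_nat_add_iff 1).2 (Real.summable_one_div_nat_pow.2 (show 1 < 2 by norm_num))
    refine Summable.mul_left 2 ?_
    simpa using this
  · intro k
    have hk : (0 : ℝ) ≤ k := Nat.cast_nonneg k
    have hc : ContinuousAt (fun w : ℝ => (3 * (k : ℝ) + 1) ^ (-w) - (3 * (k : ℝ) + 2) ^ (-w)) 1 := by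
      refine ContinuousAt.sub ?_ ?_
      · exact (Real.continuousAt_const_rpow (by positivity)).comp continuousAt_neg
      · exact (Real.continuousAt_const_rpow (by positivity)).comp continuousAt_neg
    exact hc.tendsto.mono_left nhdsWithin_le_nhds
  · have h1 : ∀ᶠ w : ℝ in 𝓝[>] (1 : ℝ), w ∈ Ioo (1 : ℝ) 2 :=
      Ioo_mem_nhdsGT (by norm_num)
    filter_upwards [h1] with w hw k
    exact term_le hw.1.le hw.2.le k

end LAUAux

open LAUAux in
/-- LAU -/
theorem t_LAU (hH : S_HUR) : S_LAU := by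
  refine ⟨-deriv (gz ((1 / 3 : ℝ) : UnitAddCircle)) 1, -deriv (gz ((2 / 3 : ℝ) : UnitAddCircle)) 1,
    ?_, ?_, ?_⟩
  · rw [neg_neg]
    exact deriv_lim _
  · rw [neg_neg]
    exact deriv_lim _
  · set D : ℂ → ℂ := fun s => gz ((1 / 3 : ℝ) : UnitAddCircle) s - gz ((2 / 3 : ℝ) : UnitAddCircle) s
      with hD
    have hD1 : HasDerivAt D (deriv (gz ((1 / 3 : ℝ) : UnitAddCircle)) 1 -
        deriv (gz ((2 / 3 : ℝ) : UnitAddCircle)) 1) ((1 : ℝ) : ℂ) := by
      rw [Complex.ofReal_one]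
      exact ((gz_diff _) 1).hasDerivAt.sub ((gz_diff _) 1).hasDerivAt
    have hD2 := hD1.real_of_complex
    have hD3 : ∀ w : ℝ, 1 < w → (D (w : ℂ)).re = (3 : ℝ) ^ w * L3 w := by
      intro w hw
      have hw1 : (w : ℂ) ≠ 1 := by
        intro h
        have : w = 1 := by exact_mod_cast h
        linarith
      have : D (w : ℂ) = (((3 : ℝ) ^ w * L3 w : ℝ) : ℂ) := by
        rw [← hH w hw, hD]
        show gz _ _ - gz _ _ = _
        rw [← gz_eq _ hw1, ← gz_eq _ hw1]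
        ring
      rw [this, Complex.ofReal_re]
    have hD4 : (D ((1 : ℝ) : ℂ)).re = Real.pi / √3 := by
      have h1 : Tendsto (fun w : ℝ => (D (w : ℂ)).re) (𝓝[>] 1) (𝓝 (D ((1 : ℝ) : ℂ)).re) :=
        hD2.continuousAt.tendsto.mono_left nhdsWithin_le_nhds
      have h2 : Tendsto (fun w : ℝ => (3 : ℝ) ^ w * L3 w) (𝓝[>] 1)
          (𝓝 ((3 : ℝ) ^ (1 : ℝ) * (Real.pi / (3 * Real.sqrt 3)))) := by
        refine Tendsto.mul ?_ L3_lim
        have : ContinuousAt (fun w : ℝ => (3 : ℝ) ^ w) 1 :=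
          Real.continuousAt_const_rpow (by norm_num)
        exact this.tendsto.mono_left nhdsWithin_le_nhds
      have h3 : Tendsto (fun w : ℝ => (D (w : ℂ)).re) (𝓝[>] 1)
          (𝓝 ((3 : ℝ) ^ (1 : ℝ) * (Real.pi / (3 * Real.sqrt 3)))) := by
        refine h2.congr' ?_
        filter_upwards [self_mem_nhdsWithin] with w hw
        exact (hD3 w hw).symm
      rw [tendsto_nhds_unique h1 h3, Real.rpow_one]
      have : √(3 : ℝ) ≠ 0 := by positivity
      field_simp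
    have hD5 := (hasDerivAt_iff_tendsto_slope.1 hD2).mono_left
      (nhdsWithin_mono (1 : ℝ) (fun w (hw : w ∈ Ioi (1 : ℝ)) => (ne_of_gt hw : w ≠ 1)))
    have e1 : (-deriv (gz ((2 / 3 : ℝ) : UnitAddCircle)) 1).re -
        (-deriv (gz ((1 / 3 : ℝ) : UnitAddCircle)) 1).re =
        (deriv (gz ((1 / 3 : ℝ) : UnitAddCircle)) 1 -
          deriv (gz ((2 / 3 : ℝ) : UnitAddCircle)) 1).re := by
      rw [Complex.neg_re, Complex.neg_re, Complex.sub_re]
      ring
    rw [e1]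
    refine hD5.congr' ?_
    filter_upwards [self_mem_nhdsWithin] with w hw
    rw [slope_def_field, hD3 w hw, hD4]

end Pool.Agent.J4.H95.R2
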