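import Pool.Agent.J4.H95.R2.Defs
import Pool.Agent.Helper88.SE3.P_L1_val

/-!
# Project R2, piece LAU
-/

set_option autoImplicit false

open MeasureTheory Set Filter Topology

namespace Pool.Agent.J4.H95.R2

open Pool.Agent.TH478.CE Pool.Agent.J4.H93.SR

namespace LAUcAux

open HurwitzZeta Complex

/-- the entire extension of `hurwitzZeta a z - 1 / (z - 1)` -/
theorem ext (a : UnitAddCircle) : ∃ F : ℂ → ℂ, Differentiable ℂ F ∧
    ∀ z : ℂ, z ≠ 1 → F z = hurwitzZeta a z - 1 / (z - 1) := by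
  have hG : Differentiable ℂ (fun s : ℂ => (Gammaℝ s)⁻¹) := differentiable_Gammaℝ_inv
  have hD : Differentiable ℂ (dslope (fun s : ℂ => (Gammaℝ s)⁻¹) 1) := by
    have := (Complex.differentiableOn_dslope (f := fun s : ℂ => (Gammaℝ s)⁻¹) (s := univ) (c := 1)
      univ_mem).2 hG.differentiableOn
    exact differentiableOn_univ.1 this
  have e : ∀ z : ℂ, z ≠ 1 → (hurwitzZeta a z - 1 / (z - 1) / Gammaℝ z) +
      dslope (fun s : ℂ => (Gammaℝ s)⁻¹) 1 z = hurwitzZeta a z - 1 / (z - 1) := by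
    intro z hz
    have hz' : z - 1 ≠ 0 := sub_ne_zero.2 hz
    rw [dslope_of_ne _ hz, slope_def_field, Gammaℝ_one, inv_one]
    field_simp
    ring
  refine ⟨fun z => (hurwitzZeta a z - 1 / (z - 1) / Gammaℝ z) +
    dslope (fun s : ℂ => (Gammaℝ s)⁻¹) 1 z, ?_, e⟩
  intro z
  by_cases hz : z = 1
  · subst hz
    exact (differentiableAt_hurwitzZeta_sub_one_div a).add (hD 1)
  · have h1 : DifferentiableAt ℂ (fun z : ℂ => hurwitzZeta a z - 1 / (z - 1)) z :=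
      (differentiableAt_hurwitzZeta a hz).sub
        ((differentiableAt_const _).div (differentiableAt_id.sub_const _) (sub_ne_zero.2 hz))
    refine h1.congr_of_eventuallyEq ?_
    filter_upwards [isOpen_ne.mem_nhds hz] with w hw using e w hw

theorem deriv_tendsto {F f : ℂ → ℂ} (hF : Differentiable ℂ F) (h : ∀ z : ℂ, z ≠ 1 → F z = f z) :
    Tendsto (deriv f) (𝓝[≠] (1 : ℂ)) (𝓝 (deriv F 1)) := by
  have hc : Continuous (deriv F) := (hF.contDiff (n := 1)).continuous_deriv le_rfl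
  have h1 : Tendsto (deriv F) (𝓝[≠] (1 : ℂ)) (𝓝 (deriv F 1)) :=
    (hc.tendsto 1).mono_left nhdsWithin_le_nhds
  refine h1.congr' ?_
  filter_upwards [self_mem_nhdsWithin] with z hz
  refine Filter.EventuallyEq.deriv_eq ?_
  filter_upwards [isOpen_ne.mem_nhds hz] with w hw using h w hw

/-- one term of the L-series -/
theorem term_bound (k : ℕ) (w : ℝ) (h1 : 1 < w) (h2 : w < 2) :
    ‖(3 * (k : ℝ) + 1) ^ (-w) - (3 * (k : ℝ) + 2) ^ (-w)‖ ≤
      2 * (1 / (3 * (k : ℝ) + 1) - 1 / (3 * (k : ℝ) + 2)) := by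
  have hk : (0 : ℝ) ≤ k := Nat.cast_nonneg k
  have ha : (1 : ℝ) ≤ 3 * (k : ℝ) + 1 := by linarith
  obtain ⟨A, hA⟩ : ∃ A : ℝ, A = 3 * (k : ℝ) + 1 := ⟨_, rfl⟩
  have hB : 3 * (k : ℝ) + 2 = A + 1 := by rw [hA]; ring
  rw [hB, ← hA]
  rw [← hA] at ha
  have hA0 : 0 < A := by linarith
  have hB0 : 0 < A + 1 := by linarith
  have h3 : (A + 1) ^ (-w) ≤ A ^ (-w) :=
    Real.rpow_le_rpow_of_nonpos hA0 (by linarith) (by linarith)
  rw [Real.norm_eq_abs, abs_of_nonneg (by linarith)]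
  have e1 : (A + 1) ^ (-w) = A ^ (-w) * (A / (A + 1)) ^ w := by
    rw [Real.div_rpow hA0.le hB0.le, Real.rpow_neg hA0.le, Real.rpow_neg hB0.le]
    have := (Real.rpow_pos_of_pos hA0 w).ne'
    have := (Real.rpow_pos_of_pos hB0 w).ne'
    field_simp
  have hr0 : 0 < A / (A + 1) := by positivity
  have hr1 : A / (A + 1) ≤ 1 := by rw [div_le_one hB0]; linarith
  have h4 : (A / (A + 1)) ^ (2 : ℝ) ≤ (A / (A + 1)) ^ w :=
    Real.rpow_le_rpow_of_exponent_ge hr0 hr1 h2.le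
  have h5 : A ^ (-w) ≤ A ^ (-1 : ℝ) := Real.rpow_le_rpow_of_exponent_le ha (by linarith)
  rw [Real.rpow_neg_one] at h5
  rw [Real.rpow_two] at h4
  have h6 : 1 - (A / (A + 1)) ^ 2 ≤ 2 / (A + 1) := by
    have : 1 - (A / (A + 1)) ^ 2 = 2 / (A + 1) - 1 / (A + 1) ^ 2 := by field_simp; ring
    rw [this]
    have : 0 ≤ 1 / (A + 1) ^ 2 := by positivity
    linarith
  have h7 : 0 ≤ A ^ (-w) := (Real.rpow_pos_of_pos hA0 _).le
  have h8 : 0 ≤ 1 - (A / (A + 1)) ^ w := by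
    have : (A / (A + 1)) ^ w ≤ 1 := Real.rpow_le_one hr0.le hr1 (by linarith)
    linarith
  calc A ^ (-w) - (A + 1) ^ (-w) = A ^ (-w) * (1 - (A / (A + 1)) ^ w) := by rw [e1]; ring
    _ ≤ A⁻¹ * (1 - (A / (A + 1)) ^ w) := mul_le_mul_of_nonneg_right h5 h8
    _ ≤ A⁻¹ * (2 / (A + 1)) := mul_le_mul_of_nonneg_left (by linarith) (by positivity)
    _ = 2 * (1 / A - 1 / (A + 1)) := by field_simp; ring

theorem L3_tendsto : Tendsto L3 (𝓝[>] 1) (𝓝 (Real.pi / (3 * √3))) := by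
  rw [← Pool.Agent.Helper88.SE.L1_val.tsum_eq]
  unfold L3
  refine tendsto_tsum_of_dominated_convergence
    (bound := fun k : ℕ => 2 * (1 / (3 * (k : ℝ) + 1) - 1 / (3 * (k : ℝ) + 2)))
    (Pool.Agent.Helper88.SE.L1_val.summable.mul_left 2) ?_ ?_
  · intro k
    have hk : (0 : ℝ) ≤ k := Nat.cast_nonneg k
    have key : ∀ A : ℝ, 0 < A → Tendsto (fun w : ℝ => A ^ (-w)) (𝓝[>] 1) (𝓝 (1 / A)) := by
      intro A hA
      have : ContinuousAt (fun w : ℝ => A ^ (-w)) 1 :=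
        (Real.continuousAt_const_rpow hA.ne').comp (f := fun w : ℝ => -w) continuousAt_neg
      have h := this.tendsto.mono_left (nhdsWithin_le_nhds (s := Ioi (1 : ℝ)))
      rwa [Real.rpow_neg_one, ← one_div] at h
    exact (key _ (by positivity)).sub (key _ (by positivity))
  · have : ∀ᶠ w : ℝ in 𝓝[>] 1, w < 2 :=
      (eventually_lt_nhds (by norm_num : (1 : ℝ) < 2)).filter_mono nhdsWithin_le_nhds
    filter_upwards [this, self_mem_nhdsWithin] with w hw1 hw2 k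
    exact term_bound k w hw2 hw1

theorem G_tendsto : Tendsto (fun w : ℝ => (3 : ℝ) ^ w * L3 w) (𝓝[>] 1) (𝓝 (Real.pi / √3)) := by
  have h1 : Tendsto (fun w : ℝ => (3 : ℝ) ^ w) (𝓝[>] 1) (𝓝 3) := by
    have : ContinuousAt (fun w : ℝ => (3 : ℝ) ^ w) 1 := Real.continuousAt_const_rpow (by norm_num)
    have h := this.tendsto.mono_left (nhdsWithin_le_nhds (s := Ioi (1 : ℝ)))
    rwa [Real.rpow_one] at h
  have h2 := h1.mul L3_tendsto
  have e : 3 * (Real.pi / (3 * √3)) = Real.pi / √3 := by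
    have : √3 ≠ 0 := by positivity
    field_simp
  rwa [e] at h2

end LAUcAux

open LAUcAux in
theorem t_LAUc (h : S_HUR) : S_LAU := by
  obtain ⟨F1, hF1, e1⟩ := LAUcAux.ext ((1 / 3 : ℝ) : UnitAddCircle)
  obtain ⟨F2, hF2, e2⟩ := LAUcAux.ext ((2 / 3 : ℝ) : UnitAddCircle)
  refine ⟨-deriv F1 1, -deriv F2 1, ?_, ?_, ?_⟩
  · rw [neg_neg]
    exact deriv_tendsto hF1 e1
  · rw [neg_neg]
    exact deriv_tendsto hF2 e2
  · -- the difference
    have hH : ∀ w : ℝ, 1 < w → F1 (w : ℂ) - F2 (w : ℂ) = (((3 : ℝ) ^ w * L3 w : ℝ) : ℂ) := by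
      intro w hw
      have hw' : (w : ℂ) ≠ 1 := by
        intro h
        have : w = 1 := by exact_mod_cast h
        linarith
      rw [e1 _ hw', e2 _ hw', ← h w hw]
      ring
    have hd : HasDerivAt (fun z : ℂ => F1 z - F2 z) (deriv F1 1 - deriv F2 1) ((1 : ℝ) : ℂ) := by
      rw [Complex.ofReal_one]
      exact ((hF1 1).hasDerivAt).sub ((hF2 1).hasDerivAt)
    have hr := hd.real_of_complex
    have ht : Tendsto (fun w : ℝ => (F1 (w : ℂ) - F2 (w : ℂ)).re) (𝓝[>] 1)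
        (𝓝 ((F1 ((1 : ℝ) : ℂ) - F2 ((1 : ℝ) : ℂ)).re)) :=
      hr.continuousAt.tendsto.mono_left nhdsWithin_le_nhds
    have hv : (F1 ((1 : ℝ) : ℂ) - F2 ((1 : ℝ) : ℂ)).re = Real.pi / √3 := by
      refine tendsto_nhds_unique ht (G_tendsto.congr' ?_)
      filter_upwards [self_mem_nhdsWithin] with w hw
      rw [hH w hw, Complex.ofReal_re]
    rw [hasDerivAt_iff_tendsto_slope] at hr
    have hr' := hr.mono_left (nhdsWithin_mono (1 : ℝ) (fun w (hw : w ∈ Ioi (1 : ℝ)) => (ne_of_gt hw : w ≠ 1)))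
    have e3 : (deriv F1 1 - deriv F2 1).re = (-deriv F2 1).re - (-deriv F1 1).re := by
      simp
      ring
    rw [e3] at hr'
    refine hr'.congr' ?_
    filter_upwards [self_mem_nhdsWithin] with w hw
    rw [slope_def_field, hv, hH w hw, Complex.ofReal_re]

end Pool.Agent.J4.H95.R2
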