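import Pool.Agent.J4.H95.R2.Defs
import Pool.Agent.J4.H93.SR.Low

/-!
# Project R2, piece LOW
-/

set_option autoImplicit false

open MeasureTheory Set Filter Topology

namespace Pool.Agent.J4.H95.R2

open Pool.Agent.TH478.CE Pool.Agent.J4.H93.SR

theorem t_LOW : S_LOW := by
  intro τ hτ ε hε
  obtain ⟨N0, _, h1⟩ := Phi_low hτ hε
  filter_upwards [eventually_ge_atTop N0] with N hN x
  have h2 := h1 N hN x
  have h3 := Pool.Agent.J4.H93.RZ.En_sub_LP_le (4 * Real.pi * τ) (by positivity)
  linarith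

end Pool.Agent.J4.H95.R2
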