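import Pool.Agent.J4.H95.R2.Defs

set_option autoImplicit false

open MeasureTheory Set Filter Topology

namespace Pool.Agent.J4.H95.R2.MEANAux

/-- the integral `∫_0^∞ log t e^(-t) dt = -γ` -/
lemma log_exp : IntegrableOn (fun t : ℝ => Real.exp (-t) * Real.log t) (Ioi 0) ∧
    ∫ t in Ioi (0 : ℝ), Real.exp (-t) * Real.log t = -Real.eulerMascheroniConstant := by
  have hs : 0 < (1 : ℂ).re := by simp
  have hmain : MellinConvergent (fun t : ℝ => Real.log t • ((Real.exp (-t) : ℝ) : ℂ)) 1 := by
    refine (mellin_hasDerivAt_of_isBigO_rpow (E := ℂ) (a := 2) (b := 0)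
      (f := fun t : ℝ => ((Real.exp (-t) : ℝ) : ℂ)) (s := 1) ?_ ?_ (by norm_num) ?_ (by norm_num)).1
    · refine (Continuous.continuousOn ?_).locallyIntegrableOn measurableSet_Ioi
      exact Complex.continuous_ofReal.comp (Real.continuous_exp.comp continuous_neg)
    · rw [← Asymptotics.isBigO_norm_left]
      simp_rw [Complex.norm_real, Asymptotics.isBigO_norm_left]
      simpa only [neg_one_mul] using (isLittleO_exp_neg_mul_rpow_atTop zero_lt_one _).isBigO
    · simp_rw [neg_zero, Real.rpow_zero]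
      refine Asymptotics.isBigO_const_of_tendsto (?_ : Tendsto _ _ (𝓝 (1 : ℂ))) one_ne_zero
      rw [(by simp : (1 : ℂ) = Real.exp (-0))]
      exact (Complex.continuous_ofReal.comp (Real.continuous_exp.comp continuous_neg)).continuousWithinAt
  have h1 := Complex.hasDerivAt_GammaIntegral hs
  have h2 : HasDerivAt Complex.GammaIntegral (-(Real.eulerMascheroniConstant : ℂ)) 1 := by
    refine Complex.hasDerivAt_Gamma_one.congr_of_eventuallyEq ?_
    have ho : IsOpen {s : ℂ | 0 < s.re} := Complex.continuous_re.isOpen_preimage _ isOpen_Ioi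
    filter_upwards [ho.mem_nhds hs] with a ha
    exact (Complex.Gamma_eq_integral ha).symm
  have h3 := h1.unique h2
  have hfun : ∀ t : ℝ, (t : ℂ) ^ ((1 : ℂ) - 1) * (Real.log t * Real.exp (-t))
      = ((Real.exp (-t) * Real.log t : ℝ) : ℂ) := by
    intro t
    rw [sub_self, Complex.cpow_zero, one_mul]
    push_cast
    ring
  constructor
  · have h4 : IntegrableOn (fun t : ℝ => ((Real.exp (-t) * Real.log t : ℝ) : ℂ)) (Ioi 0) := by
      unfold MellinConvergent at hmain
      refine hmain.congr_fun (fun t _ => ?_) measurableSet_Ioi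
      simp only [sub_self, Complex.cpow_zero, one_smul, Complex.real_smul]
      push_cast
      ring
    have h5 := h4.re
    simp only [RCLike.re_to_complex, Complex.ofReal_re] at h5
    exact h5
  · simp only [hfun] at h3
    rw [integral_complex_ofReal] at h3
    exact_mod_cast h3

/-- the integrand is bounded -/
lemma hbound {u : ℝ} (hu : 0 < u) : ‖(1 - Real.exp (-u)) / u‖ ≤ 1 := by
  have h1 : 1 - Real.exp (-u) ≤ u := by linarith [Real.add_one_le_exp (-u)]
  have h2 : 0 ≤ 1 - Real.exp (-u) := by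
    have : Real.exp (-u) ≤ 1 := Real.exp_le_one_iff.2 (by linarith)
    linarith
  rw [Real.norm_eq_abs, abs_of_nonneg (div_nonneg h2 hu.le), div_le_one hu]
  exact h1

lemma hmeas : Measurable (fun u : ℝ => (1 - Real.exp (-u)) / u) := by fun_prop

lemma hint (a : ℝ) : IntegrableOn (fun u : ℝ => (1 - Real.exp (-u)) / u) (Ioc 0 a) := by
  refine Integrable.mono' (g := fun _ => (1 : ℝ)) ?_ hmeas.aestronglyMeasurable ?_
  · exact integrableOn_const (by simp)
  · refine (ae_restrict_iff' measurableSet_Ioc).2 (Eventually.of_forall fun u hu => ?_)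
    exact hbound hu.1

lemma cont0 : ContinuousWithinAt (fun u : ℝ => (1 - Real.exp (-u)) * Real.log u) (Ici 0) 0 := by
  have h1 : Tendsto (fun u : ℝ => (1 - Real.exp (-u)) * Real.log u) (𝓝[>] 0) (𝓝 0) := by
    have h2 : Tendsto (fun u : ℝ => |Real.log u * u|) (𝓝[>] 0) (𝓝 0) := by
      have h3 := tendsto_log_mul_rpow_nhdsGT_zero (r := 1) one_pos
      simp only [Real.rpow_one] at h3
      simpa using h3.abs
    refine squeeze_zero_norm' ?_ h2
    filter_upwards [self_mem_nhdsWithin] with u hu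
    have hu0 : (0 : ℝ) < u := hu
    have h4 := hbound hu0
    rw [norm_div, Real.norm_eq_abs u, abs_of_pos hu0, div_le_one hu0] at h4
    rw [norm_mul, abs_mul, Real.norm_eq_abs (Real.log u), mul_comm |Real.log u|, abs_of_pos hu0]
    exact mul_le_mul_of_nonneg_right h4 (abs_nonneg _)
  have h5 : ContinuousWithinAt (fun u : ℝ => (1 - Real.exp (-u)) * Real.log u) (Ioi 0) 0 := by
    unfold ContinuousWithinAt
    simpa using h1
  exact continuousWithinAt_Ioi_iff_Ici.1 h5

/-- integration by parts -/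
lemma parts {x : ℝ} (hx : 0 < x) : ∫ u in (0 : ℝ)..x, (1 - Real.exp (-u)) / u =
    (1 - Real.exp (-x)) * Real.log x - ∫ u in (0 : ℝ)..x, Real.exp (-u) * Real.log u := by
  have hi1 : IntervalIntegrable (fun u : ℝ => Real.exp (-u) * Real.log u) volume 0 x := by
    rw [intervalIntegrable_iff_integrableOn_Ioc_of_le hx.le]
    exact log_exp.1.mono_set Ioc_subset_Ioi_self
  have hi2 : IntervalIntegrable (fun u : ℝ => (1 - Real.exp (-u)) / u) volume 0 x := by
    rw [intervalIntegrable_iff_integrableOn_Ioc_of_le hx.le]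
    exact hint x
  have h := intervalIntegral.integral_eq_sub_of_hasDerivAt_of_le hx.le
    (f := fun u : ℝ => (1 - Real.exp (-u)) * Real.log u)
    (f' := fun u : ℝ => Real.exp (-u) * Real.log u + (1 - Real.exp (-u)) / u) ?_ ?_ (hi1.add hi2)
  · rw [intervalIntegral.integral_add hi1 hi2] at h
    simp only [neg_zero, Real.exp_zero, sub_self, zero_mul, sub_zero] at h
    linarith
  · intro u hu
    rcases eq_or_lt_of_le hu.1 with h0 | h0
    · rw [← h0]
      exact cont0.mono Icc_subset_Ici_self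
    · refine ContinuousAt.continuousWithinAt ?_
      exact (by fun_prop : ContinuousAt (fun u : ℝ => 1 - Real.exp (-u)) u).mul
        (Real.continuousAt_log h0.ne')
  · intro u hu
    have h1 : HasDerivAt (fun u : ℝ => 1 - Real.exp (-u)) (Real.exp (-u)) u := by
      have := ((hasDerivAt_neg u).exp).const_sub 1
      simpa using this
    have h2 : HasDerivAt (fun u : ℝ => (1 - Real.exp (-u)) * Real.log u)
        (Real.exp (-u) * Real.log u + (1 - Real.exp (-u)) * u⁻¹) u :=
      h1.mul (Real.hasDerivAt_log hu.1.ne')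
    simp only [div_eq_mul_inv]
    exact h2

lemma limit : Tendsto (fun x : ℝ => (∫ u in (0 : ℝ)..x, (1 - Real.exp (-u)) / u) - Real.log x) atTop
    (𝓝 Real.eulerMascheroniConstant) := by
  have h1 : Tendsto (fun x : ℝ => ∫ u in (0 : ℝ)..x, Real.exp (-u) * Real.log u) atTop
      (𝓝 (-Real.eulerMascheroniConstant)) := by
    rw [← log_exp.2]
    exact intervalIntegral_tendsto_integral_Ioi 0 log_exp.1 tendsto_id
  have h2 : Tendsto (fun x : ℝ => Real.exp (-x) * Real.log x) atTop (𝓝 0) := by
    have h3 : Tendsto (fun x : ℝ => x * Real.exp (-x)) atTop (𝓝 0) := by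
      simpa using Real.tendsto_pow_mul_exp_neg_atTop_nhds_zero 1
    refine squeeze_zero' ?_ ?_ h3
    · filter_upwards [eventually_ge_atTop (1 : ℝ)] with x hx
      exact mul_nonneg (Real.exp_pos _).le (Real.log_nonneg hx)
    · filter_upwards [eventually_ge_atTop (1 : ℝ)] with x hx
      rw [mul_comm]
      exact mul_le_mul_of_nonneg_right ((Real.log_le_sub_one_of_pos (by linarith)).trans
        (by linarith)) (Real.exp_pos _).le
  have h4 : Tendsto (fun x : ℝ => -(Real.exp (-x) * Real.log x) -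
      ∫ u in (0 : ℝ)..x, Real.exp (-u) * Real.log u) atTop (𝓝 Real.eulerMascheroniConstant) := by
    simpa using h2.neg.sub h1
  refine h4.congr' ?_
  filter_upwards [eventually_gt_atTop (0 : ℝ)] with x hx
  rw [parts hx]
  ring

lemma rescale (N : ℕ) (hN : 0 < N) :
    (∀ τ : ℝ, (N : ℝ) * ((1 - Real.exp (-(4 * (τ * N)))) / (4 * (τ * N))) =
      N * ((1 - Real.exp (-(4 * N * τ))) / (4 * N * τ))) ∧
    IntegrableOn (fun τ : ℝ => (N : ℝ) * ((1 - Real.exp (-(4 * (τ * N)))) / (4 * (τ * N))))
      (Ioc 0 1) ∧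
    ∫ τ in Ioc (0 : ℝ) 1, (N : ℝ) * ((1 - Real.exp (-(4 * (τ * N)))) / (4 * (τ * N))) =
      1 / 4 * ∫ u in (0 : ℝ)..(4 * N), (1 - Real.exp (-u)) / u := by
  have hN0 : (0 : ℝ) < N := Nat.cast_pos.2 hN
  have h0 : ∀ τ : ℝ, (N : ℝ) * ((1 - Real.exp (-(4 * (τ * N)))) / (4 * (τ * N))) =
      N * ((1 - Real.exp (-(4 * N * τ))) / (4 * N * τ)) := by
    intro τ
    rw [show 4 * (τ * (N : ℝ)) = 4 * N * τ by ring]
  refine ⟨h0, ?_, ?_⟩
  · refine Integrable.mono' (g := fun _ => (N : ℝ)) (integrableOn_const (by simp)) ?_ ?_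
    · have : Measurable (fun τ : ℝ => (N : ℝ) * ((1 - Real.exp (-(4 * (τ * N)))) / (4 * (τ * N)))) := by
        fun_prop
      exact this.aestronglyMeasurable
    · refine (ae_restrict_iff' measurableSet_Ioc).2 (Eventually.of_forall fun τ hτ => ?_)
      rw [norm_mul, Real.norm_eq_abs (N : ℝ), abs_of_pos hN0]
      exact mul_le_of_le_one_right hN0.le (hbound (by have := hτ.1; positivity))
  · simp only [h0]
    rw [integral_const_mul, ← intervalIntegral.integral_of_le zero_le_one,
      intervalIntegral.integral_comp_mul_left (fun u : ℝ => (1 - Real.exp (-u)) / u)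
        (by positivity : (4 * (N : ℝ)) ≠ 0), mul_zero, mul_one, smul_eq_mul, ← mul_assoc]
    congr 1
    field_simp

lemma final : Tendsto (fun N : ℕ => (∫ τ in Ioc (0 : ℝ) 1,
      (N : ℝ) * ((1 - Real.exp (-(4 * (τ * N)))) / (4 * (τ * N)))) - 1 / 4 * Real.log N) atTop
    (𝓝 (1 / 4 * (Real.log 4 + Real.eulerMascheroniConstant))) := by
  have h1 : Tendsto (fun N : ℕ => 4 * (N : ℝ)) atTop atTop :=
    Tendsto.const_mul_atTop (by norm_num) tendsto_natCast_atTop_atTop
  have h2 : Tendsto (fun N : ℕ => 1 / 4 * (Real.log 4 +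
      ((∫ u in (0 : ℝ)..(4 * N), (1 - Real.exp (-u)) / u) - Real.log (4 * N)))) atTop
      (𝓝 (1 / 4 * (Real.log 4 + Real.eulerMascheroniConstant))) :=
    ((limit.comp h1).const_add _).const_mul _
  refine h2.congr' ?_
  filter_upwards [eventually_gt_atTop 0] with N hN
  have hN0 : (0 : ℝ) < N := Nat.cast_pos.2 hN
  rw [(rescale N hN).2.2, Real.log_mul (by norm_num) hN0.ne']
  ring

end Pool.Agent.J4.H95.R2.MEANAux

namespace Pool.Agent.J4.H95.R2

open Pool.Agent.J4.H93.SR

theorem t_MEAN : S_MEAN :=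
  ⟨fun N hN => (MEANAux.rescale N hN).2.1, MEANAux.final⟩

end Pool.Agent.J4.H95.R2
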