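import Pool.Agent.J4.H95.R2.Key

/-!
# Project R2: the main theorem from the pieces
-/

set_option autoImplicit false

open MeasureTheory Set Filter Topology

namespace Pool.Agent.J4.H95.R2

open Pool.Agent.TH478.CE Pool.Agent.J4.H93.SR Pool.Agent.J4.H93.RZ

namespace Main

/-- the value of the integral of the profile -/
theorem int_Ps (hMEL : S_MEL) (hCONT : S_CONT) (hZET : S_ZET) (hFIN : S_FIN) {D : ℝ}
    (hD : Tendsto (fun w : ℝ => ((3 : ℝ) ^ w * L3 w - Real.pi / √3) / (w - 1)) (𝓝[>] 1) (𝓝 D)) :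
    ∫ τ in Ioi (0 : ℝ), Ps τ =
      -(1 / 4) * Real.log (8 * √3 * Real.pi) + √3 / (4 * Real.pi) * D := by
  refine tendsto_nhds_unique hCONT ((hFIN D hD).congr' ?_)
  filter_upwards [self_mem_nhdsWithin] with w hw
  have hw1 : 1 < w := hw
  rw [(hMEL w hw1).2, hZET w hw1]

theorem const_eq (D : ℝ) :
    1 / 4 * (Real.log 4 + Real.eulerMascheroniConstant) +
      (-(1 / 4) * Real.log (8 * √3 * Real.pi) + √3 / (4 * Real.pi) * D) =
    1 / 4 * (Real.eulerMascheroniConstant - Real.log (2 * √3 * Real.pi)) +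
      √3 / (4 * Real.pi) * D := by
  have h1 : Real.log (8 * √3 * Real.pi) = Real.log 4 + Real.log (2 * √3 * Real.pi) := by
    rw [← Real.log_mul (by norm_num) (by positivity)]
    congr 1
    ring
  rw [h1]
  ring

/-- the set of the energies of the `N`-point configurations -/
def ES (N : ℕ) : Set ℝ := {E : ℝ | ∃ x : Fin N → EuclideanSpace ℝ (Fin 3),
  Function.Injective x ∧ (∀ i, ‖x i‖ = 1) ∧
  E = ∑ i, ∑ j, if i = j then (0 : ℝ) else 1 / ‖x i - x j‖ ^ 2}

theorem ES_nonempty (N : ℕ) : (ES N).Nonempty := by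
  refine ⟨_, fun i => !₂[Real.cos ((i : ℝ) / N), Real.sin ((i : ℝ) / N), 0], ?_, ?_, rfl⟩
  · intro i j hij
    have hN : (0 : ℝ) < N := by
      have := i.pos
      exact_mod_cast this
    have h1 : Real.cos ((i : ℝ) / N) = Real.cos ((j : ℝ) / N) := by
      have := congrArg (fun v : EuclideanSpace ℝ (Fin 3) => v 0) hij
      simpa using this
    have hmem : ∀ k : Fin N, ((k : ℝ) / N) ∈ Icc (0 : ℝ) Real.pi := by
      intro k
      have hk : ((k : ℕ) : ℝ) < N := by exact_mod_cast k.isLt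
      refine ⟨by positivity, ?_⟩
      have : (k : ℝ) / N ≤ 1 := by
        rw [div_le_one hN]
        exact hk.le
      linarith [Real.pi_gt_three]
    have h2 := Real.injOn_cos (hmem i) (hmem j) h1
    have h3 : ((i : ℕ) : ℝ) = ((j : ℕ) : ℝ) := by
      field_simp at h2
      exact h2
    exact Fin.ext (by exact_mod_cast h3)
  · intro i
    rw [EuclideanSpace.norm_eq]
    simp [Fin.sum_univ_three]

theorem main (hREP : S_REP) (hMEAN : S_MEAN) (hPs : IntegrableOn Ps (Ioi 0)) (hDM : S_DM)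
    (hLOW : S_LOW) (hMEL : S_MEL) (hCONT : S_CONT) (hZET : S_ZET) (hLAU : S_LAU) (hFIN : S_FIN) :
    ∃ c₁ c₂ : ℂ,
      Tendsto (fun s : ℂ => deriv (fun z : ℂ =>
        HurwitzZeta.hurwitzZeta ((1/3 : ℝ) : UnitAddCircle) z - 1 / (z - 1)) s)
        (𝓝[≠] (1 : ℂ)) (𝓝 (-c₁)) ∧
      Tendsto (fun s : ℂ => deriv (fun z : ℂ =>
        HurwitzZeta.hurwitzZeta ((2/3 : ℝ) : UnitAddCircle) z - 1 / (z - 1)) s)
        (𝓝[≠] (1 : ℂ)) (𝓝 (-c₂)) ∧
      ∀ᶠ N : ℕ in atTop,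
        (1/4 : ℝ) * (N : ℝ) ^ 2 * Real.log (N : ℝ)
          + ((1/4 : ℝ) * (Real.eulerMascheroniConstant
                - Real.log (2 * Real.sqrt 3 * Real.pi))
              + Real.sqrt 3 / (4 * Real.pi) * (c₂.re - c₁.re) - 10 ^ (-8 : ℤ)) * (N : ℝ) ^ 2 ≤
        sInf (ES N) := by
  obtain ⟨c₁, c₂, h1, h2, h3⟩ := hLAU
  refine ⟨c₁, c₂, h1, h2, ?_⟩
  have hi := int_Ps hMEL hCONT hZET hFIN h3
  filter_upwards [Key.key hREP hMEAN hPs hDM hLOW (ε := 3 / 10 * 10 ^ (-8 : ℤ)) (by positivity),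
    eventually_gt_atTop 0] with N hN hN0
  have hN1 : (0 : ℝ) < N := by exact_mod_cast hN0
  refine le_csInf (ES_nonempty N) ?_
  rintro E ⟨x, hx, hx1, rfl⟩
  have h4 := hN (fun i => ⟨x i, by simpa using hx1 i⟩) (fun i j hij => hx (congrArg Subtype.val hij))
  rw [hi, le_div_iff₀ (by positivity)] at h4
  have h5 : E2 (fun i => (⟨x i, by simpa using hx1 i⟩ : S2)) =
      ∑ i, ∑ j, if i = j then (0 : ℝ) else 1 / ‖x i - x j‖ ^ 2 := by
    unfold E2
    refine Finset.sum_congr rfl fun i _ => Finset.sum_congr rfl fun j _ => ?_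
    split_ifs with h
    · rfl
    · rw [Subtype.dist_eq, dist_eq_norm]
  rw [h5] at h4
  refine le_trans (le_of_eq ?_) h4
  have h6 := const_eq (c₂.re - c₁.re)
  have h7 : 1 / 4 * Real.log N + 1 / 4 * (Real.log 4 + Real.eulerMascheroniConstant) +
      (-(1 / 4) * Real.log (8 * √3 * Real.pi) + √3 / (4 * Real.pi) * (c₂.re - c₁.re)) -
      7 / 10 * 10 ^ (-8 : ℤ) - 3 / 10 * 10 ^ (-8 : ℤ) = 1 / 4 * Real.log N +
      (1 / 4 * (Real.eulerMascheroniConstant - Real.log (2 * √3 * Real.pi)) +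
      √3 / (4 * Real.pi) * (c₂.re - c₁.re)) - 10 ^ (-8 : ℤ) := by
    linarith
  rw [h7]
  ring

end Main

end Pool.Agent.J4.H95.R2
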