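import Pool.Agent.J4.H95.R2.Defs

/-! Piece REP of project R2. -/

set_option autoImplicit false

open MeasureTheory Set Filter Topology

namespace Pool.Agent.J4.H95.R2

open Pool.Agent.TH478.CE Pool.Agent.J4.H93.SR

namespace REPAux

theorem one (c : ℝ) (hc : 0 < c) : IntegrableOn (fun τ : ℝ => Real.exp (-(τ * c))) (Ioi 0) ∧
    ∫ τ in Ioi (0 : ℝ), Real.exp (-(τ * c)) = 1 / c := by
  have h1 := integrableOn_exp_mul_Ioi (a := -c) (by linarith) 0
  have h2 := integral_exp_mul_Ioi (a := -c) (by linarith) 0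
  have e : ∀ τ : ℝ, -c * τ = -(τ * c) := fun τ => by ring
  simp only [e] at h1 h2
  refine ⟨h1, ?_⟩
  rw [h2]
  simp

end REPAux

open REPAux in
theorem t_REP : S_REP := by
  intro N hN x hx
  have hN0 : (0 : ℝ) < N := by exact_mod_cast hN
  have hd : ∀ i j, i ≠ j → 0 < dist (x i) (x j) ^ 2 := fun i j hij =>
    pow_pos (dist_pos.2 fun h => hij (hx h)) 2
  have key : ∀ i j, IntegrableOn (fun τ : ℝ => if i = j then 0 else
      Real.exp (-(τ * N * dist (x i) (x j) ^ 2))) (Ioi 0) ∧
      ∫ τ in Ioi (0 : ℝ), (if i = j then 0 else Real.exp (-(τ * N * dist (x i) (x j) ^ 2))) =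
        (if i = j then 0 else 1 / dist (x i) (x j) ^ 2) / N := by
    intro i j
    by_cases hij : i = j
    · simp only [if_pos hij, integral_zero, zero_div]
      exact ⟨integrableOn_zero, trivial⟩
    · simp only [if_neg hij]
      have h1 := one (N * dist (x i) (x j) ^ 2) (mul_pos hN0 (hd i j hij))
      simp only [← mul_assoc] at h1
      refine ⟨h1.1, ?_⟩
      rw [h1.2, div_div, mul_comm]
  have hI : IntegrableOn (fun τ : ℝ => Ga (τ * N) x) (Ioi 0) := by
    unfold Ga
    exact integrable_finsetSum _ fun i _ => integrable_finsetSum _ fun j _ => (key i j).1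
  refine ⟨hI.const_mul _, ?_⟩
  rw [integral_const_mul]
  have h2 : ∫ τ in Ioi (0 : ℝ), Ga (τ * N) x = E2 x / N := by
    unfold Ga E2
    rw [integral_finsetSum _ fun i _ => integrable_finsetSum _ fun j _ => (key i j).1,
      Finset.sum_div]
    refine Finset.sum_congr rfl fun i _ => ?_
    rw [integral_finsetSum _ fun j _ => (key i j).1, Finset.sum_div]
    exact Finset.sum_congr rfl fun j _ => (key i j).2
  rw [h2]
  field_simp

end Pool.Agent.J4.H95.R2
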