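import Pool.Agent.J4.H95.R2.Defs

/-! Project R2, piece CONT (second copy): dominated convergence. -/

set_option autoImplicit false

open MeasureTheory Set Filter Topology

namespace Pool.Agent.J4.H95.R2.Two

open Pool.Agent.J4.H95.R2

theorem t_CONT (hP : S_PSI) : S_CONT := by
  unfold S_PSI at hP
  unfold S_CONT
  have hm : AEStronglyMeasurable Ps (volume.restrict (Ioi 0)) := by
    have h1 : AEStronglyMeasurable (fun τ : ℝ => (max 1 τ)⁻¹ * (max 1 τ * Ps τ))
        (volume.restrict (Ioi 0)) := by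
      refine AEStronglyMeasurable.mul ?_ hP.aestronglyMeasurable
      exact ((measurable_const.max measurable_id).inv).aestronglyMeasurable
    refine h1.congr (Eventually.of_forall fun τ => ?_)
    have h2 : (max 1 τ : ℝ) ≠ 0 := (lt_of_lt_of_le one_pos (le_max_left _ _)).ne'
    show (max 1 τ)⁻¹ * (max 1 τ * Ps τ) = Ps τ
    rw [← mul_assoc, inv_mul_cancel₀ h2, one_mul]
  refine tendsto_integral_filter_of_dominated_convergence
    (fun τ : ℝ => ‖max 1 τ * Ps τ‖) ?_ ?_ hP.norm ?_
  · refine Eventually.of_forall fun w => ?_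
    refine AEStronglyMeasurable.mul ?_ hm
    exact (measurable_id.pow_const (w - 1)).aestronglyMeasurable
  · have h1 : ∀ᶠ w : ℝ in 𝓝[>] 1, w ∈ Ioc (1 : ℝ) 2 :=
      Ioc_mem_nhdsGT (by norm_num)
    filter_upwards [h1] with w hw
    rw [ae_restrict_iff' measurableSet_Ioi]
    refine Eventually.of_forall fun τ hτ => ?_
    have hτ0 : 0 < τ := hτ
    rw [norm_mul, norm_mul]
    refine mul_le_mul_of_nonneg_right ?_ (norm_nonneg _)
    rw [Real.norm_eq_abs, Real.norm_eq_abs, abs_of_pos (Real.rpow_pos_of_pos hτ0 _),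
      abs_of_pos (lt_of_lt_of_le one_pos (le_max_left _ _))]
    rcases le_total τ 1 with h | h
    · exact (Real.rpow_le_one hτ0.le h (by linarith [hw.1])).trans (le_max_left _ _)
    · refine le_trans ?_ (le_max_right _ _)
      calc τ ^ (w - 1) ≤ τ ^ (1 : ℝ) := Real.rpow_le_rpow_of_exponent_le h (by linarith [hw.2])
        _ = τ := Real.rpow_one τ
  · rw [ae_restrict_iff' measurableSet_Ioi]
    refine Eventually.of_forall fun τ hτ => ?_
    have hτ0 : 0 < τ := hτ
    have h1 : Tendsto (fun w : ℝ => τ ^ (w - 1)) (𝓝[>] 1) (𝓝 (τ ^ ((1 : ℝ) - 1))) := by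
      have h2 : ContinuousAt (fun w : ℝ => τ ^ (w - 1)) 1 := by
        have h3 : ContinuousAt (fun y : ℝ => τ ^ y) ((1 : ℝ) - 1) :=
          Real.continuousAt_const_rpow hτ0.ne'
        exact ContinuousAt.comp (g := fun y : ℝ => τ ^ y) (f := fun w : ℝ => w - 1) h3
          (continuous_id.sub continuous_const).continuousAt
      exact h2.tendsto.mono_left nhdsWithin_le_nhds
    rw [sub_self, Real.rpow_zero] at h1
    have h4 := h1.mul_const (Ps τ)
    rwa [one_mul] at h4

end Pool.Agent.J4.H95.R2.Two
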